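import Pool.Agent.LVN.Stmts

/-!
# Liouville metrics in at least three variables: the theorem, from the analytic core
-/

set_option autoImplicit false

namespace Pool.Agent.LVN

open MeasureTheory Set Filter Topology Pool.Agent.XRay

namespace ABSAux

/-- the indicator of a compact set times a function continuous on it is measurable -/
theorem meas_ind {E : Type} [TopologicalSpace E] [T2Space E] [MeasurableSpace E] [BorelSpace E]
    (M : Set E) (f : E → ℝ) (hM : IsCompact M) (hf : ContinuousOn f M) :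
    Measurable (M.indicator f) := by
  classical
  have h := hf.measurable_piecewise (continuousOn_const (c := (0 : ℝ)) (s := Mᶜ))
    hM.isClosed.measurableSet
  rwa [← Set.piecewise_eq_indicator]

/-- the data of one slice -/
noncomputable def mk {k : ℕ} (F : E k → ℝ) (hF : Measurable F) (C : ℝ) (hC : ∀ z, |F z| ≤ C)
    (u : Fin k → ℝ → ℝ) (a B : ℝ) (ha : 0 < a) (hu : ∀ i, Continuous (u i))
    (hub : ∀ i x, a ≤ u i x ∧ u i x ≤ B) (r : ℝ) (hr : 0 < r)
    (hs : ∀ x : E k, (∃ i, r ≤ |x i|) → F x = 0) : LD k where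
  U := u
  φ := fun x => F x * ∑ i, u i (x i)
  a := a
  B := max B (C * (k * B))
  R := r
  a0 := ha
  R0 := hr
  Uc := hu
  Ua := fun i t => (hub i t).1
  UB := fun i t => (hub i t).2.trans (le_max_left _ _)
  φm := hF.mul (Finset.measurable_sum _ fun i _ => (hu i).measurable.comp
    (by fun_prop : Continuous fun x : E k => x i).measurable)
  φB := fun x => by
    refine le_trans ?_ (le_max_right _ _)
    rw [abs_mul]
    have h3 : 0 ≤ C := (abs_nonneg _).trans (hC x)
    refine mul_le_mul (hC _) ?_ (abs_nonneg _) h3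
    rw [abs_of_nonneg (Finset.sum_nonneg fun i _ => ha.le.trans (hub i _).1)]
    calc ∑ i, u i (x i) ≤ ∑ _i : Fin k, B := Finset.sum_le_sum fun i _ => (hub i _).2
      _ = k * B := by simp
  φ0 := fun x h => by
    show F x * _ = 0
    rw [hs x h, zero_mul]

/-- a common lower bound -/
theorem exists_min {k : ℕ} (a : Fin k → ℝ) (ha : ∀ i, 0 < a i) : ∃ a' : ℝ, 0 < a' ∧ ∀ i, a' ≤ a i := by
  classical
  rcases (Finset.univ : Finset (Fin k)).eq_empty_or_nonempty with h | h
  · refine ⟨1, one_pos, fun i => ?_⟩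
    exact absurd (Finset.mem_univ i) (by rw [h]; exact Finset.notMem_empty i)
  · obtain ⟨j, -, hj⟩ := Finset.exists_min_image Finset.univ a h
    exact ⟨a j, ha j, fun i => hj i (Finset.mem_univ i)⟩

end ABSAux

open ABSAux

theorem abs_ (hF : Stmt_FLOW) (hN : Stmt_NUL) (hS : Stmt_SEG) (hM : Stmt_MODU) (hD : Stmt_DIF)
    (hC : Stmt_CORE) : Stmt_ABS := by
  classical
  intro n m G U hG hLio M f c₀ δ hMc hnull hf hδ hc₀ hrg hZ
  obtain ⟨hUd, hUpos⟩ := hD n m G U hG hLio
  -- the modified functions
  have hmod := fun i => hM (fun x => U i x + c₀ i) ((fun z : T (n + 3) m => z.1 i) '' M)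
    ((hUd i).continuous.add continuous_const) (hMc.image (by fun_prop)) (by
      rintro x ⟨z, hz, rfl⟩
      exact hrg z hz i)
  choose u a₁ B₁ ha₁ huc hub huM using hmod
  obtain ⟨a, ha, haa⟩ := exists_min a₁ ha₁
  obtain ⟨B, hB⟩ : ∃ B : ℝ, ∀ i, B₁ i ≤ B := by
    obtain ⟨B, hB⟩ := (Set.finite_range B₁).bddAbove
    exact ⟨B, fun i => hB ⟨i, rfl⟩⟩
  have hub' : ∀ i x, a ≤ u i x ∧ u i x ≤ B := fun i x =>
    ⟨(haa i).trans (hub i x).1, (hub i x).2.trans (hB i)⟩
  -- bounds
  obtain ⟨C, hCb⟩ := hMc.exists_bound_of_continuousOn hf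
  obtain ⟨r₁, hr₁⟩ := (hMc.image (f := fun z : T (n + 3) m => z.1)
    (by fun_prop)).isBounded.exists_norm_le
  obtain ⟨r, hr, hrM⟩ : ∃ r : ℝ, 0 < r ∧ ∀ z ∈ M, ∀ i, |z.1 i| < r := by
    refine ⟨max r₁ 0 + 1, by positivity, fun z hz i => ?_⟩
    have h1 := hr₁ z.1 ⟨z, hz, rfl⟩
    have h2 := PiLp.norm_apply_le z.1 i
    rw [Real.norm_eq_abs] at h2
    have h4 := le_max_left r₁ 0
    linarith
  have hCp : 0 ≤ max C 0 := le_max_right _ _
  have hind : Measurable (M.indicator f) := meas_ind M f hMc hf
  -- the slices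
  have hFm : ∀ w : E m, Measurable (fun z : E (n + 3) => M.indicator f (z, w)) := fun w =>
    hind.comp (by fun_prop : Continuous fun z : E (n + 3) => ((z, w) : T (n + 3) m)).measurable
  have hFb : ∀ (w : E m) (z : E (n + 3)), |M.indicator f (z, w)| ≤ max C 0 := fun w z => by
    by_cases hz : (z, w) ∈ M
    · rw [Set.indicator_of_mem hz]
      exact (hCb _ hz).trans (le_max_left _ _)
    · rw [Set.indicator_of_notMem hz, abs_zero]
      exact hCp
  have hFs : ∀ (w : E m) (x : E (n + 3)), (∃ i, r ≤ |x i|) → M.indicator f (x, w) = 0 :=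
    fun w x ⟨i, hi⟩ => by
      refine Set.indicator_of_notMem (fun hz => ?_) _
      exact absurd (hrM _ hz i) (not_lt.2 hi)
  -- a.e. slice of the frontier is null
  have hfm : MeasurableSet (frontier M) := isClosed_frontier.measurableSet
  have hpm : MeasurableSet {p : E (n + 3) × E m | (p.1, p.2) ∉ frontier M} := hfm.compl
  have hae : ∀ᵐ w : E m, ∀ᵐ z : E (n + 3), (z, w) ∉ frontier M := by
    have h1 : ∀ᵐ p : E (n + 3) × E m, (p.1, p.2) ∉ frontier M := by
      rw [ae_iff]
      simpa using hnull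
    rw [Measure.volume_eq_prod] at h1
    exact (Measure.ae_ae_comm hpm).1 (Measure.ae_ae_of_ae_prod h1)
  -- the core
  have hcore : ∀ᵐ w : E m, ∀ᵐ z : E (n + 3), M.indicator f (z, w) = 0 := by
    filter_upwards [hae] with w hw
    let D : LD (n + 3) := mk (fun z => M.indicator f (z, w)) (hFm w) (max C 0) (hFb w) u a B
      ha huc hub' r hr (hFs w)
    have hDa : 0 < D.a / 2 := half_pos D.a0
    have h2 := hC n D (min δ (D.a / 2)) (lt_min hδ hDa) (by
      intro c hc hcd X hX s hs
      have hca : ∀ i, |c i| ≤ D.a / 2 := fun i => ((hcd i).trans_le (min_le_right _ _)).le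
      have hcδ : ∀ i, |c i| < δ := fun i => (hcd i).trans_le (min_le_left _ _)
      have h1 := hN (n + 3) D c X hca hX s hs {z : E (n + 3) | (z, w) ∈ frontier M}
        (hfm.preimage (by fun_prop :
          Continuous fun z : E (n + 3) => ((z, w) : T (n + 3) m)).measurable) (by
          rw [ae_iff] at hw
          simpa using hw)
      filter_upwards [h1] with b hb
      refine hS n m G U hG hLio hUd M f c₀ δ hMc hf hc₀ hZ D c X s b w hc hca hcδ hX hs
        (fun z hz i => huM i _ ⟨z, hz, rfl⟩) ?_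
      filter_upwards [hb] with τ hτ
      exact hτ)
    filter_upwards [h2] with z hz
    have h3 : M.indicator f (z, w) * ∑ i, u i (z i) = 0 := hz
    rcases mul_eq_zero.1 h3 with h4 | h4
    · exact h4
    · have h5 : 0 < ∑ i, u i (z i) :=
        Finset.sum_pos (fun i _ => ha.trans_le (hub' i _).1) ⟨0, Finset.mem_univ _⟩
      exact absurd h4 h5.ne'
  have hfull : ∀ᵐ p : E (n + 3) × E m, M.indicator f (p.1, p.2) = 0 := by
    have hset : MeasurableSet {p : E (n + 3) × E m | M.indicator f (p.1, p.2) = 0} :=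
      hind (measurableSet_singleton 0)
    rw [Measure.volume_eq_prod]
    exact (Measure.ae_prod_iff_ae_ae hset).2 ((Measure.ae_ae_comm hset).2 hcore)
  -- the interior
  have hint : EqOn f (fun _ => (0 : ℝ)) (interior M) := by
    refine Measure.eqOn_open_of_ae_eq (μ := (volume : Measure (E (n + 3) × E m))) ?_
      isOpen_interior (hf.mono interior_subset) continuousOn_const
    filter_upwards [ae_restrict_of_ae hfull,
      ae_restrict_mem (isOpen_interior.measurableSet)] with p hp hpM
    rwa [Set.indicator_of_mem (interior_subset hpM)] at hp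
  have hcl : closure (interior M) ⊆ M :=
    (closure_mono interior_subset).trans hMc.isClosed.closure_eq.subset
  have hfin := hint.of_subset_closure (hf.mono hcl) continuousOn_const subset_closure subset_rfl
  exact fun z hz => hfin hz

end Pool.Agent.LVN
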