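import Pool.Agent.LVN.Stmts
import Pool.Agent.Lib_helper92.XRay.Hol

/-!
# Liouville metrics in at least three variables: holomorphy in the constants
-/

set_option autoImplicit false

namespace Pool.Agent.LVN

open MeasureTheory Set Filter Topology

namespace ANAAux

/-- near a point of the slit plane -/
lemma slit {a : ℝ} {c₀ : ℂ} (h : (a : ℂ) + c₀ ∈ Complex.slitPlane) :
    ∃ η : ℝ, 0 < η ∧ ∃ r : ℝ, 0 < r ∧ ∀ c : ℂ, ‖c - c₀‖ < r → ∀ u : ℝ, a ≤ u →
      (u : ℂ) + c ∈ Complex.slitPlane ∧ η ≤ ‖(u : ℂ) + c‖ := by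
  rw [Complex.mem_slitPlane_iff] at h
  rcases h with h | h
  · have h0 : 0 < a + c₀.re := by simpa using h
    refine ⟨(a + c₀.re) / 2, by positivity, (a + c₀.re) / 2, by positivity, ?_⟩
    intro c hc u hu
    have h1 : |(c - c₀).re| ≤ ‖c - c₀‖ := Complex.abs_re_le_norm _
    rw [Complex.sub_re, abs_le] at h1
    have h2 : (a + c₀.re) / 2 ≤ ((u : ℂ) + c).re := by
      simp only [Complex.add_re, Complex.ofReal_re]
      linarith [h1.1]
    refine ⟨?_, ?_⟩
    · rw [Complex.mem_slitPlane_iff]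
      left
      linarith
    · exact h2.trans ((le_abs_self _).trans (Complex.abs_re_le_norm _))
  · have h0 : c₀.im ≠ 0 := by simpa using h
    have h3 : 0 < |c₀.im| := abs_pos.2 h0
    refine ⟨|c₀.im| / 2, by positivity, |c₀.im| / 2, by positivity, ?_⟩
    intro c hc u hu
    have h1 : |(c - c₀).im| ≤ ‖c - c₀‖ := Complex.abs_im_le_norm _
    rw [Complex.sub_im] at h1
    have h4 : |c₀.im| ≤ |c.im - c₀.im| + |c.im| := by
      have := abs_sub_abs_le_abs_sub c₀.im c.im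
      rw [abs_sub_comm] at this
      linarith
    have h2 : |c₀.im| / 2 ≤ |((u : ℂ) + c).im| := by
      simp only [Complex.add_im, Complex.ofReal_im, zero_add]
      linarith
    refine ⟨?_, ?_⟩
    · rw [Complex.mem_slitPlane_iff]
      right
      intro h5
      rw [h5, abs_zero] at h2
      linarith
    · exact h2.trans (Complex.abs_im_le_norm _)

lemma norm_half (z : ℂ) : ‖z ^ ((1 : ℂ) / 2)‖ = √‖z‖ := by
  have h : ((1 : ℂ) / 2) = (((1 / 2 : ℝ)) : ℂ) := by push_cast; ring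
  rw [h, Complex.norm_cpow_real, Real.sqrt_eq_rpow]

variable {k : ℕ} (D : LD k)

lemma p_inv_bd {i : Fin k} {η : ℝ} (hη : 0 < η) {c : ℂ} {t : ℝ}
    (h : η ≤ ‖(D.U i t : ℂ) + c‖) : ‖(D.p i c t)⁻¹‖ ≤ (√η)⁻¹ := by
  unfold LD.p
  rw [norm_inv, norm_half]
  exact inv_anti₀ (Real.sqrt_pos.2 hη) (Real.sqrt_le_sqrt h)

lemma p_ne {i : Fin k} {c : ℂ} {t : ℝ} (h : (D.U i t : ℂ) + c ∈ Complex.slitPlane) :
    D.p i c t ≠ 0 := by
  unfold LD.p
  intro h0
  have h1 := norm_half ((D.U i t : ℂ) + c)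
  rw [h0, norm_zero] at h1
  have h2 := Complex.slitPlane_ne_zero h
  have h3 : 0 < √‖(D.U i t : ℂ) + c‖ := Real.sqrt_pos.2 (norm_pos_iff.2 h2)
  linarith

lemma p_inv_diff {i : Fin k} {c : ℂ} {t : ℝ} (h : (D.U i t : ℂ) + c ∈ Complex.slitPlane) :
    DifferentiableAt ℂ (fun c => (D.p i c t)⁻¹) c := by
  refine DifferentiableAt.inv ?_ (p_ne D h)
  unfold LD.p
  exact DifferentiableAt.cpow_const ((differentiableAt_const _).add differentiableAt_id) h

lemma p_inv_cont {i : Fin k} {c : ℂ} (h : ∀ t, (D.U i t : ℂ) + c ∈ Complex.slitPlane) :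
    Continuous (fun t => (D.p i c t)⁻¹) := by
  refine Continuous.inv₀ ?_ (fun t => p_ne D (h t))
  unfold LD.p
  refine continuous_iff_continuousAt.2 fun t => ?_
  refine ContinuousAt.cpow ?_ continuousAt_const (h t)
  exact ((Complex.continuous_ofReal.comp (D.Uc i)).add continuous_const).continuousAt

lemma Y_cont {i : Fin k} {c : ℂ} (h : ∀ t, (D.U i t : ℂ) + c ∈ Complex.slitPlane) :
    Continuous (fun t => D.Y i c t) := by
  unfold LD.Y
  exact intervalIntegral.continuous_primitive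
    (fun a b => (p_inv_cont D h).intervalIntegrable a b) 0

lemma Y_bd {i : Fin k} {η : ℝ} (hη : 0 < η) {c : ℂ} (h : ∀ t, η ≤ ‖(D.U i t : ℂ) + c‖) (t : ℝ) :
    ‖D.Y i c t‖ ≤ (√η)⁻¹ * |t| := by
  unfold LD.Y
  have := intervalIntegral.norm_integral_le_of_norm_le_const (a := (0 : ℝ)) (b := t)
    (f := fun s => (D.p i c s)⁻¹) (C := (√η)⁻¹) (fun s _ => p_inv_bd D hη (h s))
  simpa using this

lemma Y_diff {i : Fin k} {η : ℝ} (hη : 0 < η) {c₀ : ℂ} {r : ℝ} (hr : 0 < r)
    (h : ∀ c ∈ Metric.ball c₀ r, ∀ t, (D.U i t : ℂ) + c ∈ Complex.slitPlane ∧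
      η ≤ ‖(D.U i t : ℂ) + c‖) (t : ℝ) :
    DifferentiableAt ℂ (fun c => D.Y i c t) c₀ := by
  unfold LD.Y
  refine Pool.Agent.XRay.differentiableAt_intervalIntegral (ε := r) (B := fun _ => (√η)⁻¹)
    hr ?_ ?_ intervalIntegrable_const ?_
  · intro c hc
    exact (p_inv_cont D (fun t => (h c hc t).1)).aestronglyMeasurable
  · refine Filter.Eventually.of_forall fun s c hc => ?_
    exact (p_inv_diff D (h c hc s).1).differentiableWithinAt
  · refine Filter.Eventually.of_forall fun s c hc => ?_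
    exact p_inv_bd D hη (h c hc s).2

/-- the integrand -/
noncomputable def F (lam c : Fin k → ℂ) (x : E k) : ℂ := (D.φ x : ℂ) *
    ∏ i, (Complex.exp (Complex.I * lam i * D.Y i (c i) (x i)) * (D.p i (c i) (x i))⁻¹)

lemma F_meas (lam : Fin k → ℂ) {c : Fin k → ℂ}
    (h : ∀ i t, (D.U i t : ℂ) + c i ∈ Complex.slitPlane) : Measurable (F D lam c) := by
  unfold F
  refine Measurable.mul (Complex.measurable_ofReal.comp D.φm) ?_
  refine Continuous.measurable ?_
  refine continuous_finsetProd _ fun i _ => ?_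
  have hx : Continuous (fun x : E k => x i) := by fun_prop
  refine Continuous.mul ?_ ((p_inv_cont D (h i)).comp hx)
  exact Complex.continuous_exp.comp (continuous_const.mul ((Y_cont D (h i)).comp hx))

lemma F_zero (lam c : Fin k → ℂ) {x : E k} (hx : ∃ i, D.R ≤ |x i|) : F D lam c x = 0 := by
  unfold F
  rw [D.φ0 x hx]
  simp

lemma F_bd {η : ℝ} (hη : 0 < η) (lam : Fin k → ℂ) {c : Fin k → ℂ}
    (h : ∀ i t, η ≤ ‖(D.U i t : ℂ) + c i‖) {x : E k} (hx : ∀ i, |x i| ≤ D.R) :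
    ‖F D lam c x‖ ≤ D.B * ∏ i, (Real.exp (‖lam i‖ * ((√η)⁻¹ * D.R)) * (√η)⁻¹) := by
  unfold F
  rw [norm_mul, Complex.norm_real, norm_prod]
  have hB0 : 0 ≤ D.B := (abs_nonneg _).trans (D.φB 0)
  refine mul_le_mul (D.φB x) ?_ (by positivity) hB0
  refine Finset.prod_le_prod (fun i _ => norm_nonneg _) fun i _ => ?_
  rw [norm_mul]
  refine mul_le_mul ?_ (p_inv_bd D hη (h i (x i))) (norm_nonneg _) (by positivity)
  refine (Complex.norm_exp_le_exp_norm _).trans ?_
  refine Real.exp_le_exp.2 ?_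
  rw [norm_mul, norm_mul, Complex.norm_I, one_mul]
  refine mul_le_mul_of_nonneg_left ?_ (norm_nonneg _)
  refine (Y_bd D hη (h i) (x i)).trans ?_
  exact mul_le_mul_of_nonneg_left (hx i) (by positivity)

lemma box_finite (R : ℝ) : volume {x : E k | ∀ i, |x i| ≤ R} < ⊤ := by
  have h1 : {x : E k | ∀ i, |x i| ≤ R} ⊆ Metric.closedBall 0 (√(k * R ^ 2)) := by
    intro x hx
    rw [mem_closedBall_zero_iff, EuclideanSpace.norm_eq]
    refine Real.sqrt_le_sqrt ?_
    calc ∑ i, ‖x i‖ ^ 2 ≤ ∑ _i : Fin k, R ^ 2 := by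
          refine Finset.sum_le_sum fun i _ => ?_
          rw [Real.norm_eq_abs]
          exact pow_le_pow_left₀ (abs_nonneg _) (hx i) 2
      _ = k * R ^ 2 := by simp
  exact (measure_mono h1).trans_lt Metric.isBounded_closedBall.measure_lt_top

lemma box_meas (R : ℝ) : MeasurableSet {x : E k | ∀ i, |x i| ≤ R} := by
  have h1 : {x : E k | ∀ i, |x i| ≤ R} = ⋂ i, {x : E k | |x i| ≤ R} := by
    ext x
    simp
  rw [h1]
  refine MeasurableSet.iInter fun i => ?_
  have hx : Continuous (fun x : E k => |x i|) := by fun_prop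
  exact (isClosed_le hx continuous_const).measurableSet

end ANAAux

open ANAAux in
theorem ana : Stmt_ANA := by
  intro k D lam c θ₀ hc hs
  choose η hη r hr H using fun i => slit (hs i)
  -- a common lower bound
  obtain ⟨η₀, hη₀, hη₁⟩ : ∃ η₀ : ℝ, 0 < η₀ ∧ ∀ i, η₀ ≤ η i := by
    refine ⟨∏ i, min (η i) 1, Finset.prod_pos fun i _ => lt_min (hη i) one_pos, fun i => ?_⟩
    rw [← Finset.mul_prod_erase Finset.univ _ (Finset.mem_univ i)]
    have h1 : ∏ j ∈ Finset.univ.erase i, min (η j) 1 ≤ 1 :=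
      Finset.prod_le_one (fun j _ => (lt_min (hη j) one_pos).le) fun j _ => min_le_right _ _
    have h2 : 0 ≤ min (η i) 1 := (lt_min (hη i) one_pos).le
    calc min (η i) 1 * ∏ j ∈ Finset.univ.erase i, min (η j) 1 ≤ min (η i) 1 * 1 :=
          mul_le_mul_of_nonneg_left h1 h2
      _ ≤ η i := by rw [mul_one]; exact min_le_left _ _
  have hev : ∀ᶠ θ in 𝓝 θ₀, ∀ i, DifferentiableAt ℂ (fun θ => c θ i) θ ∧
      c θ i ∈ Metric.ball (c θ₀ i) (r i) := by
    rw [eventually_all]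
    intro i
    have h1 : ∀ᶠ θ in 𝓝 θ₀, AnalyticAt ℂ (fun θ => c θ i) θ := (hc i).eventually_analyticAt
    have h2 : ∀ᶠ θ in 𝓝 θ₀, c θ i ∈ Metric.ball (c θ₀ i) (r i) :=
      (hc i).continuousAt.eventually (Metric.ball_mem_nhds _ (hr i))
    filter_upwards [h1, h2] with θ h1 h2
    exact ⟨h1.differentiableAt, h2⟩
  obtain ⟨ε, hε, hball⟩ := Metric.eventually_nhds_iff_ball.1 hev
  have hsl : ∀ i, ∀ z ∈ Metric.ball (c θ₀ i) (r i), ∀ t, (D.U i t : ℂ) + z ∈ Complex.slitPlane ∧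
      η₀ ≤ ‖(D.U i t : ℂ) + z‖ := by
    intro i z hz t
    have := H i z (by rwa [mem_ball_iff_norm] at hz) (D.U i t) (D.Ua i t)
    exact ⟨this.1, (hη₁ i).trans this.2⟩
  set C : ℝ := D.B * ∏ i, (Real.exp (‖lam i‖ * ((√η₀)⁻¹ * D.R)) * (√η₀)⁻¹) with hC
  have key : DifferentiableOn ℂ (fun θ => D.J lam (c θ)) (Metric.ball θ₀ ε) := by
    intro θ₁ hθ₁
    refine DifferentiableAt.differentiableWithinAt ?_
    obtain ⟨δ, hδ, hsub⟩ : ∃ δ > 0, Metric.ball θ₁ δ ⊆ Metric.ball θ₀ ε :=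
      Metric.isOpen_iff.1 Metric.isOpen_ball θ₁ hθ₁
    show DifferentiableAt ℂ (fun θ => ∫ x : E k, F D lam (c θ) x) θ₁
    refine Pool.Agent.XRay.differentiableAt_integral (ε := δ)
      (B := {x : E k | ∀ i, |x i| ≤ D.R}.indicator (fun _ => C)) hδ ?_ ?_ ?_ ?_
    · intro θ hθ
      exact (F_meas D lam fun i t => (hsl i _ (hball θ (hsub hθ) i).2 t).1).aestronglyMeasurable
    · refine Filter.Eventually.of_forall fun x θ hθ => ?_
      refine DifferentiableAt.differentiableWithinAt ?_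
      show DifferentiableAt ℂ (fun θ => (D.φ x : ℂ) * ∏ i,
        (Complex.exp (Complex.I * lam i * D.Y i (c θ i) (x i)) * (D.p i (c θ i) (x i))⁻¹)) θ
      refine (differentiableAt_const _).mul ?_
      refine DifferentiableAt.fun_finsetProd fun i _ => ?_
      have h1 := hball θ (hsub hθ) i
      obtain ⟨ρ, hρ, hsub2⟩ : ∃ ρ > 0, Metric.ball (c θ i) ρ ⊆ Metric.ball (c θ₀ i) (r i) :=
        Metric.isOpen_iff.1 Metric.isOpen_ball _ h1.2
      have h2 : DifferentiableAt ℂ (fun z => D.Y i z (x i)) (c θ i) :=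
        Y_diff D hη₀ hρ (fun z hz t => hsl i z (hsub2 hz) t) (x i)
      have h3 : DifferentiableAt ℂ (fun z => (D.p i z (x i))⁻¹) (c θ i) :=
        p_inv_diff D (hsl i _ h1.2 (x i)).1
      have h4 : DifferentiableAt ℂ (fun θ => D.Y i (c θ i) (x i)) θ :=
        DifferentiableAt.comp (g := fun z => D.Y i z (x i)) (f := fun θ => c θ i) θ h2 h1.1
      have h5 : DifferentiableAt ℂ (fun θ => (D.p i (c θ i) (x i))⁻¹) θ :=
        DifferentiableAt.comp (g := fun z => (D.p i z (x i))⁻¹) (f := fun θ => c θ i) θ h3 h1.1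
      exact ((h4.const_mul (Complex.I * lam i)).cexp).mul h5
    · refine (integrable_indicator_iff (box_meas D.R)).2 ?_
      exact integrableOn_const (box_finite D.R).ne
    · refine Filter.Eventually.of_forall fun x θ hθ => ?_
      by_cases hx : ∀ i, |x i| ≤ D.R
      · rw [indicator_of_mem (show x ∈ {x : E k | ∀ i, |x i| ≤ D.R} from hx)]
        exact F_bd D hη₀ lam (fun i t => (hsl i _ (hball θ (hsub hθ) i).2 t).2) hx
      · rw [indicator_of_notMem (show x ∉ {x : E k | ∀ i, |x i| ≤ D.R} from hx)]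
        push Not at hx
        obtain ⟨i, hi⟩ := hx
        rw [F_zero D lam _ ⟨i, hi.le⟩, norm_zero]
  exact key.analyticAt (Metric.ball_mem_nhds θ₀ hε)

end Pool.Agent.LVN
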