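import Pool.Agent.LVN.Stmts

/-!
# Change of variables along the flows
-/

set_option autoImplicit false

namespace Pool.Agent.LVN

open MeasureTheory Set Filter Topology

namespace CHVAux

variable {k : ℕ}

/-- the diagonal map -/
noncomputable def dgl (r : Fin k → ℝ) : E k →ₗ[ℝ] E k :=
  Matrix.toLin (EuclideanSpace.basisFun (Fin k) ℝ).toBasis
    (EuclideanSpace.basisFun (Fin k) ℝ).toBasis (Matrix.diagonal r)

theorem dgl_apply (r : Fin k → ℝ) (v : E k) (i : Fin k) : dgl r v i = r i * v i := by
  classical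
  unfold dgl
  rw [Matrix.toLin_apply]
  simp only [Matrix.mulVec_diagonal]
  have : (∑ j, (r j * (EuclideanSpace.basisFun (Fin k) ℝ).toBasis.repr v j) •
      (EuclideanSpace.basisFun (Fin k) ℝ).toBasis j) i =
      ∑ j, (r j * v j) * (if i = j then 1 else 0) := by
    rw [WithLp.ofLp_sum, Finset.sum_apply]
    refine Finset.sum_congr rfl fun j _ => ?_
    simp
  rw [this]
  simp

theorem det_dgl (r : Fin k → ℝ) : LinearMap.det (dgl r) = ∏ i, r i := by
  classical
  unfold dgl
  rw [LinearMap.det_toLin, Matrix.det_diagonal]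

end CHVAux

open CHVAux in
theorem chv : Stmt_CHV := by
  intro k D c X hc hF lam
  classical
  have hpos : ∀ i t, 0 < D.U i t + c i := fun i t => by
    have h1 := D.Ua i t
    have h2 := (abs_le.1 (hc i)).1
    have h3 := D.a0
    linarith
  have hp : ∀ i t, D.p i (c i : ℂ) t = ((√(D.U i t + c i) : ℝ) : ℂ) := fun i t => by
    unfold LD.p
    rw [Real.sqrt_eq_rpow, Complex.ofReal_cpow (hpos i t).le]
    push_cast
    rfl
  have hY : ∀ i t, D.Y i (c i : ℂ) t = ((∫ s in (0 : ℝ)..t, (√(D.U i s + c i))⁻¹ : ℝ) : ℂ) :=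
    fun i t => by
      unfold LD.Y
      rw [← intervalIntegral.integral_ofReal]
      refine intervalIntegral.integral_congr fun s _ => ?_
      simp only [hp]
      push_cast
      rfl
  set Φ : E k → E k := fun b => WithLp.toLp 2 (fun i => X i (b i)) with hΦ
  set r : E k → Fin k → ℝ := fun b i => √(D.U i (X i (b i)) + c i) with hr
  have hr0 : ∀ b i, 0 < r b i := fun b i => Real.sqrt_pos.2 (hpos _ _)
  set Φ' : E k → E k →L[ℝ] E k := fun b => LinearMap.toContinuousLinearMap (dgl (r b)) with hΦ'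
  have hder : ∀ b, HasFDerivAt Φ (Φ' b) b := by
    intro b
    rw [← hasFDerivWithinAt_univ, hasFDerivWithinAt_euclidean]
    intro i
    rw [hasFDerivWithinAt_univ]
    have h1 : HasFDerivAt (fun x : E k => x i) (EuclideanSpace.proj i : E k →L[ℝ] ℝ) b :=
      (EuclideanSpace.proj i : E k →L[ℝ] ℝ).hasFDerivAt
    have h2 := (hF.hX i (b i)).comp_hasFDerivAt b h1
    refine h2.congr_fderiv ?_
    ext v
    simp [hΦ', dgl_apply, hr]
  have hinj : Function.Injective Φ := by
    intro b b' h
    ext i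
    have h1 : X i (b i) = X i (b' i) := by
      have := congrArg (fun x : E k => x i) h
      simpa [hΦ] using this
    have h2 := hF.inv_X i (b i)
    rw [h1, hF.inv_X i (b' i)] at h2
    exact h2.symm
  have hsurj : Function.Surjective Φ := by
    intro x
    refine ⟨WithLp.toLp 2 (fun i => ∫ t in (0 : ℝ)..(x i), (√(D.U i t + c i))⁻¹), ?_⟩
    ext i
    simp only [hΦ]
    exact hF.X_inv i (x i)
  have key := integral_image_eq_integral_abs_det_fderiv_smul (volume : Measure (E k))
    (s := univ) (f := Φ) (f' := Φ') MeasurableSet.univ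
    (fun b _ => (hder b).hasFDerivWithinAt) hinj.injOn
    (fun x : E k => (D.φ x : ℂ) *
      ∏ i, (Complex.exp (Complex.I * lam i * D.Y i (c i : ℂ) (x i)) * (D.p i (c i : ℂ) (x i))⁻¹))
  rw [image_univ, hsurj.range_eq, setIntegral_univ, setIntegral_univ] at key
  unfold LD.J
  rw [key]
  refine integral_congr_ae (Filter.Eventually.of_forall fun b => ?_)
  have hdet : (Φ' b).det = ∏ i, r b i := by
    simp only [hΦ']
    rw [LinearMap.det_toContinuousLinearMap, det_dgl]
  have hdet0 : 0 < ∏ i, r b i := Finset.prod_pos fun i _ => hr0 b i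
  simp only
  rw [hdet, abs_of_pos hdet0]
  have hYb : ∀ i, D.Y i (c i : ℂ) (Φ b i) = (b i : ℂ) := fun i => by
    rw [hY]
    congr 1
    exact hF.inv_X i (b i)
  have hpb : ∀ i, D.p i (c i : ℂ) (Φ b i) = (r b i : ℂ) := fun i => hp i _
  simp only [hYb, hpb]
  rw [Finset.prod_mul_distrib, ← Complex.exp_sum, Finset.mul_sum, Finset.prod_inv_distrib,
    Complex.real_smul]
  have hne : (∏ i, (r b i : ℂ)) ≠ 0 := by
    rw [← Complex.ofReal_prod]
    exact_mod_cast hdet0.ne'
  rw [Complex.ofReal_prod]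
  have : ∀ i, Complex.I * lam i * (b i : ℂ) = Complex.I * (lam i * (b i : ℂ)) := fun i => by ring
  simp only [this]
  field_simp
  rfl

end Pool.Agent.LVN
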