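import Pool.Agent.LVN.Stmts

set_option autoImplicit false

namespace Pool.Agent.LVN

open MeasureTheory Set Filter Topology

namespace CNTAux

/-- the real curve of constants -/
noncomputable def cr {k : ℕ} (γ : Fin k → ℂ) (x : ℝ) (i : Fin k) : ℝ :=
  (γ i).im * x - (γ i).re * x ^ 2

/-- the complex curve of constants -/
noncomputable def cc {k : ℕ} (γ : Fin k → ℂ) (θ : ℂ) (i : Fin k) : ℂ :=
  ((γ i).im : ℂ) * θ - ((γ i).re : ℂ) * θ ^ 2

theorem cc_ofReal {k : ℕ} (γ : Fin k → ℂ) (x : ℝ) :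
    cc γ (x : ℂ) = fun i => ((cr γ x i : ℝ) : ℂ) := by
  funext i
  simp [cc, cr]

theorem cc_I {k : ℕ} (γ : Fin k → ℂ) : cc γ Complex.I = γ := by
  funext i
  have h := Complex.re_add_im (γ i)
  simp only [cc, Complex.I_sq]
  linear_combination h

theorem sum_cr {k : ℕ} (γ : Fin k → ℂ) (h : ∑ i, γ i = 0) (x : ℝ) : ∑ i, cr γ x i = 0 := by
  have h1 : ∑ i, (γ i).re = 0 := by
    have := congrArg Complex.re h
    simpa using this
  have h2 : ∑ i, (γ i).im = 0 := by
    have := congrArg Complex.im h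
    simpa using this
  simp only [cr, Finset.sum_sub_distrib, ← Finset.sum_mul, h1, h2]
  simp

theorem small {k : ℕ} (γ : Fin k → ℂ) (δ : ℝ) (hδ : 0 < δ) :
    ∀ᶠ x : ℝ in 𝓝 0, ∀ i, |cr γ x i| < δ := by
  rw [eventually_all]
  intro i
  have hc : Continuous (fun x : ℝ => |cr γ x i|) := by
    unfold cr
    fun_prop
  have h0 : |cr γ 0 i| < δ := by simpa [cr] using hδ
  exact hc.continuousAt.eventually_lt_const h0

theorem slit {k : ℕ} (γ : Fin k → ℂ) (a : ℝ) (ha : 0 < a) (him : ∀ i, (γ i).im ≠ 0) (t : ℝ)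
    (i : Fin k) : (a : ℂ) + cc γ ((t : ℂ) * Complex.I) i ∈ Complex.slitPlane := by
  rw [Complex.mem_slitPlane_iff]
  by_cases ht : t = 0
  · left
    subst ht
    simpa [cc] using ha
  · right
    have h2 : ((t : ℂ) ^ 2).im = 0 := by
      rw [← Complex.ofReal_pow, Complex.ofReal_im]
    have : ((a : ℂ) + cc γ ((t : ℂ) * Complex.I) i).im = (γ i).im * t := by
      simp [cc, mul_pow, h2]
    rw [this]
    exact mul_ne_zero (him i) ht

end CNTAux

open CNTAux in
theorem cnt (hA : Stmt_ANA) : Stmt_CNT := by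
  intro k D s δ hδ h γ hγ him lam hlam
  set S : Set ℂ := (fun t : ℝ => (t : ℂ) * Complex.I) '' Icc (0 : ℝ) 1 with hS
  have hpre : IsPreconnected S := by
    apply (isPreconnected_Icc).image
    fun_prop
  have han : AnalyticOnNhd ℂ (fun θ => D.J lam (cc γ θ)) S := by
    rintro θ ⟨t, ht, rfl⟩
    apply hA k D lam (cc γ)
    · intro i
      unfold cc
      fun_prop
    · intro i
      exact slit γ D.a D.a0 him t i
  have h0S : (0 : ℂ) ∈ S := ⟨0, ⟨le_refl _, zero_le_one⟩, by simp⟩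
  have h1S : Complex.I ∈ S := ⟨1, ⟨zero_le_one, le_refl _⟩, by simp⟩
  have hev : (fun θ => D.J lam (cc γ θ)) =ᶠ[𝓝 0] 0 := by
    have key := (han 0 h0S).frequently_zero_iff_eventually_zero
    have hfr : ∃ᶠ z in 𝓝[≠] (0 : ℂ), (fun θ => D.J lam (cc γ θ)) z = 0 := by
      have hreal : ∀ᶠ x : ℝ in 𝓝[≠] 0, D.J lam (cc γ (x : ℂ)) = 0 := by
        filter_upwards [(small γ δ hδ).filter_mono nhdsWithin_le_nhds] with x hx
        rw [cc_ofReal]
        exact h (cr γ x) (sum_cr γ hγ x) hx lam hlam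
      have htend : Tendsto (fun x : ℝ => (x : ℂ)) (𝓝[≠] 0) (𝓝[≠] 0) := by
        apply tendsto_nhdsWithin_of_tendsto_nhds_of_eventually_within
        · have : Tendsto (fun x : ℝ => (x : ℂ)) (𝓝 0) (𝓝 ((0 : ℝ) : ℂ)) :=
            Complex.continuous_ofReal.tendsto 0
          rw [Complex.ofReal_zero] at this
          exact this.mono_left nhdsWithin_le_nhds
        · filter_upwards [self_mem_nhdsWithin] with x hx
          simpa using hx
      exact htend.frequently hreal.frequently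
    exact key.1 hfr
  have := han.eqOn_zero_of_preconnected_of_eventuallyEq_zero hpre h0S hev h1S
  simpa [cc_I] using this

end Pool.Agent.LVN
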