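import Pool.Agent.LVN.Stmts

/-!
# The analytic core, from the other statements
-/

set_option autoImplicit false

namespace Pool.Agent.LVN

open MeasureTheory Set Filter Topology

namespace COREAux

/-- the phase is at least as large as `|x| / √(a/2)` allows -/
theorem abs_phase_le {k : ℕ} (D : LD k) (c : Fin k → ℝ) (hc : ∀ i, |c i| ≤ D.a / 2) (i : Fin k)
    (x : ℝ) : |∫ t in (0 : ℝ)..x, (√(D.U i t + c i))⁻¹| ≤ (√(D.a / 2))⁻¹ * |x| := by
  have ha : 0 < D.a / 2 := by have := D.a0; linarith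
  have h1 : ∀ t ∈ Set.uIoc (0 : ℝ) x, ‖(√(D.U i t + c i))⁻¹‖ ≤ (√(D.a / 2))⁻¹ := by
    intro t _
    have h2 : D.a / 2 ≤ D.U i t + c i := by
      have := D.Ua i t
      have := (abs_le.1 (hc i)).1
      linarith
    rw [Real.norm_eq_abs, abs_of_nonneg (inv_nonneg.2 (Real.sqrt_nonneg _))]
    exact inv_anti₀ (Real.sqrt_pos.2 ha) (Real.sqrt_le_sqrt h2)
  have h3 := intervalIntegral.norm_integral_le_of_norm_le_const h1
  simpa [Real.norm_eq_abs] using h3

theorem J_zero {k : ℕ} [NeZero k] (D : LD k) (hS : Stmt_SHR) (hC : Stmt_CHV) (c : Fin k → ℝ)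
    (X : Fin k → ℝ → ℝ) (hc : ∀ i, |c i| ≤ D.a / 2) (hX : D.Flow c X) (s : Fin k → ℝ)
    (hs : Sgn s) (hz : ∀ᵐ b : E k, ∫ τ : ℝ, D.φ (pt X s b τ) = 0) (lam : Fin k → ℂ)
    (hlam : ∑ i, (s i : ℂ) * lam i = 0) : D.J lam (fun i => (c i : ℂ)) = 0 := by
  have ha : 0 < D.a / 2 := by have := D.a0; linarith
  rw [hC k D c X hc hX lam]
  set F : E k → ℝ := fun b => D.φ (WithLp.toLp 2 (fun i => X i (b i))) with hF
  have hXc : ∀ i, Continuous (X i) := fun i =>
    continuous_iff_continuousAt.2 fun s => (hX.hX i s).continuousAt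
  have hcont : Continuous fun b : E k => (WithLp.toLp 2 (fun i => X i (b i)) : E k) := by
    refine (PiLp.continuous_toLp 2 _).comp (continuous_pi fun i => (hXc i).comp ?_)
    exact (continuous_apply i).comp (PiLp.continuous_ofLp 2 _)
  have hFm : Measurable F := D.φm.comp hcont.measurable
  set Q : ℝ := (√(D.a / 2))⁻¹ * D.R with hQ
  have hQ0 : 0 ≤ Q := mul_nonneg (inv_nonneg.2 (Real.sqrt_nonneg _)) D.R0.le
  have hF0 : ∀ b : E k, √k * Q + 1 ≤ ‖b‖ → F b = 0 := by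
    intro b hb
    apply D.φ0
    by_contra hcon
    push Not at hcon
    have h1 : ∀ i, |b i| ≤ Q := by
      intro i
      have h2 := abs_phase_le D c hc i (X i (b i))
      rw [hX.inv_X i (b i)] at h2
      refine h2.trans ?_
      exact mul_le_mul_of_nonneg_left (hcon i).le (inv_nonneg.2 (Real.sqrt_nonneg _))
    have h3 : ‖b‖ ≤ √k * Q := by
      rw [EuclideanSpace.norm_eq]
      apply Real.sqrt_le_iff.2
      refine ⟨by positivity, ?_⟩
      calc ∑ i, ‖b i‖ ^ 2 ≤ ∑ _i : Fin k, Q ^ 2 := by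
            refine Finset.sum_le_sum fun i _ => ?_
            exact pow_le_pow_left₀ (norm_nonneg _) (by simpa using h1 i) 2
        _ = k * Q ^ 2 := by simp
        _ = (√k * Q) ^ 2 := by
            rw [mul_pow (√(k : ℝ)) Q 2, Real.sq_sqrt (Nat.cast_nonneg k)]
    linarith
  have hsne : (WithLp.toLp 2 s : E k) ≠ 0 := by
    intro h0
    have h1 : (WithLp.toLp 2 s : E k) 0 = 0 := by rw [h0]; rfl
    have h2 : s 0 = 0 := h1
    rcases hs 0 with h | h <;> rw [h2] at h <;> norm_num at h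
  have hline : ∀ᵐ b : E k, ∫ τ : ℝ, F (b + τ • (WithLp.toLp 2 s : E k)) = 0 := by
    filter_upwards [hz] with b hb
    rw [← hb]
    refine integral_congr_ae (Filter.Eventually.of_forall fun τ => ?_)
    simp only [hF, pt]
    congr 2
    funext i
    have : (b + τ • (WithLp.toLp 2 s : E k)) i = s i * τ + b i := by
      simp [mul_comm, add_comm]
    rw [this]
  exact hS k F D.B (√k * Q + 1) hFm (fun b => D.φB _) hF0 (WithLp.toLp 2 s) hsne hline lam hlam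

end COREAux

open COREAux in
theorem core (hF : Stmt_FLOW) (hS : Stmt_SHR) (hC : Stmt_CHV) (hCn : Stmt_CNT) (hL : Stmt_LIM)
    (hV : Stmt_VEC) (hU : Stmt_FTU) : Stmt_CORE := by
  intro n D δ hδ hz
  have ha : 0 < D.a / 2 := by have := D.a0; linarith
  refine hU (n + 3) D.φ D.B D.R D.φm D.φB D.φ0 fun ξ hξ => ?_
  obtain ⟨γ, s, hγ, him, hs, hsum⟩ := hV n (fun i => ξ i) hξ
  -- vanishing for small real constants
  have h1 : ∀ c : Fin (n + 3) → ℝ, ∑ i, c i = 0 → (∀ i, |c i| < min δ (D.a / 2)) →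
      ∀ lam : Fin (n + 3) → ℂ, ∑ i, (s i : ℂ) * lam i = 0 →
        D.J lam (fun i => (c i : ℂ)) = 0 := by
    intro c hc hci lam hlam
    have hc' : ∀ i, |c i| ≤ D.a / 2 := fun i => ((hci i).trans_le (min_le_right _ _)).le
    obtain ⟨X, hX⟩ := hF (n + 3) D c hc'
    exact J_zero D hS hC c X hc' hX s hs
      (hz c hc (fun i => (hci i).trans_le (min_le_left _ _)) X hX s hs) lam hlam
  have h2 := hCn (n + 3) D s (min δ (D.a / 2)) (lt_min hδ ha) h1
  have h3 : ∀ᶠ τ : ℝ in atTop, (∏ i, ((√τ : ℂ) * γ i ^ ((1 : ℂ) / 2))) *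
      D.J (fun i => (√τ : ℂ) * γ i ^ ((1 : ℂ) / 2) * (ξ i : ℂ)) (fun i => (τ : ℂ) * γ i) = 0 := by
    filter_upwards [eventually_gt_atTop 0] with τ hτ
    have h4 : ∀ i, ((τ : ℂ) * γ i).im ≠ 0 := by
      intro i
      have : ((τ : ℂ) * γ i).im = τ * (γ i).im := by simp
      rw [this]
      exact mul_ne_zero hτ.ne' (him i)
    have h5 : ∑ i, (s i : ℂ) * ((√τ : ℂ) * γ i ^ ((1 : ℂ) / 2) * (ξ i : ℂ)) = 0 := by
      have h6 : ∑ i, (s i : ℂ) * ((√τ : ℂ) * γ i ^ ((1 : ℂ) / 2) * (ξ i : ℂ)) =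
          (√τ : ℂ) * ∑ i, (s i : ℂ) * (γ i ^ ((1 : ℂ) / 2) * (ξ i : ℂ)) := by
        rw [Finset.mul_sum]
        exact Finset.sum_congr rfl fun i _ => by ring
      rw [h6, hsum, mul_zero]
    have h6 := h2 (fun i => (τ : ℂ) * γ i) (by rw [← Finset.mul_sum, hγ, mul_zero]) h4
      (fun i => (√τ : ℂ) * γ i ^ ((1 : ℂ) / 2) * (ξ i : ℂ)) h5
    rw [h6, mul_zero]
  have h5 := hL (n + 3) D γ him ξ
  have h6 : Tendsto (fun τ : ℝ => (∏ i, ((√τ : ℂ) * γ i ^ ((1 : ℂ) / 2))) *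
      D.J (fun i => (√τ : ℂ) * γ i ^ ((1 : ℂ) / 2) * (ξ i : ℂ)) (fun i => (τ : ℂ) * γ i)) atTop
      (𝓝 0) :=
    Tendsto.congr' (h3.mono fun τ h => h.symm) tendsto_const_nhds
  exact tendsto_nhds_unique h5 h6

end Pool.Agent.LVN
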