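import Pool.Agent.LVN.Stmts

/-!
# The functions of a Liouville metric are differentiable and their sum is positive
-/

set_option autoImplicit false

namespace Pool.Agent.LVN

open MeasureTheory Set Filter Topology

namespace DIFAux

theorem diff_comp {V : Type*} [NormedAddCommGroup V] [NormedSpace ℝ V]
    {G : V → V →L[ℝ] V →L[ℝ] ℝ} (hG : Pool.Agent.XRay.IsMetric G) {γ : ℝ → V}
    (hγ : Differentiable ℝ γ) (v w : V) : Differentiable ℝ (fun t => G (γ t) v w) := by
  have h2 : Differentiable ℝ (fun t : ℝ => G (γ t)) :=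
    Differentiable.comp (𝕜 := ℝ) (E := ℝ) (F := V) (G := V →L[ℝ] V →L[ℝ] ℝ) hG.diff hγ
  exact (h2.clm_apply (differentiable_const v)).clm_apply (differentiable_const w)

/-- the unit vector in the slice -/
noncomputable def ev (n m : ℕ) : T (n + 3) m := (EuclideanSpace.single 0 1, 0)

theorem G_ev {n m : ℕ} {G : T (n + 3) m → T (n + 3) m →L[ℝ] T (n + 3) m →L[ℝ] ℝ}
    {U : Fin (n + 3) → ℝ → ℝ} (hL : Liou G U) (z : T (n + 3) m) :
    G z (ev n m) (ev n m) = ∑ i, U i (z.1 i) := by
  rw [hL z (ev n m) (ev n m) rfl]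
  have : inner ℝ (ev n m).1 (ev n m).1 = (1 : ℝ) := by
    simp [ev]
  rw [this, mul_one]

theorem ev_ne (n m : ℕ) : ev n m ≠ 0 := by
  intro h
  have h1 : (ev n m).1 0 = 0 := by rw [h]; rfl
  simp [ev] at h1

/-- a coordinate line -/
noncomputable def line (n m : ℕ) (i : Fin (n + 3)) (t : ℝ) : T (n + 3) m :=
  (WithLp.toLp 2 (Pi.single i t : Fin (n + 3) → ℝ), 0)

theorem diff_line (n m : ℕ) (i : Fin (n + 3)) : Differentiable ℝ (line n m i) := by
  have h : Differentiable ℝ
      (fun t : ℝ => (WithLp.toLp 2 (Pi.single i t : Fin (n + 3) → ℝ) : E (n + 3))) := by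
    rw [differentiable_euclidean]
    intro j
    by_cases hj : j = i
    · subst hj
      simp
    · simp [hj]
  exact h.prodMk (differentiable_const _)

theorem line_apply (n m : ℕ) (i j : Fin (n + 3)) (t : ℝ) :
    (line n m i t).1 j = (Pi.single i t : Fin (n + 3) → ℝ) j := rfl

end DIFAux

theorem dif : Stmt_DIF := by
  intro n m G U hG hL
  have hpos : ∀ x : Fin (n + 3) → ℝ, 0 < ∑ i, U i (x i) := by
    intro x
    have h := hG.pos ((WithLp.toLp 2 x : E (n + 3)), (0 : E m)) _ (DIFAux.ev_ne n m)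
    rw [DIFAux.G_ev hL] at h
    simpa using h
  refine ⟨fun i => ?_, hpos⟩
  have h1 : Differentiable ℝ (fun t : ℝ =>
      G (DIFAux.line n m i t) (DIFAux.ev n m) (DIFAux.ev n m)) :=
    DIFAux.diff_comp hG (DIFAux.diff_line n m i) _ _
  have h4 : (fun t : ℝ => G (DIFAux.line n m i t) (DIFAux.ev n m) (DIFAux.ev n m)) =
      fun t => U i t + ∑ j ∈ Finset.univ.erase i, U j 0 := by
    funext t
    rw [DIFAux.G_ev hL, ← Finset.add_sum_erase _ _ (Finset.mem_univ i)]
    congr 1
    · rw [DIFAux.line_apply, Pi.single_eq_same]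
    · refine Finset.sum_congr rfl fun j hj => ?_
      rw [DIFAux.line_apply, Pi.single_eq_of_ne (Finset.ne_of_mem_erase hj)]
  rw [h4] at h1
  have h5 : U i = fun t => (U i t + ∑ j ∈ Finset.univ.erase i, U j 0) -
      ∑ j ∈ Finset.univ.erase i, U j 0 := by
    funext t; ring
  rw [h5]
  exact h1.sub_const _

end Pool.Agent.LVN
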