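import Pool.Agent.LVN.Stmts

/-!
# Liouville metrics in at least three variables: the inverse functions of the phases
-/

set_option autoImplicit false

namespace Pool.Agent.LVN

open MeasureTheory Set Filter Topology

namespace FLOWAux

/-- the inverse function of a primitive of a function which is bounded below -/
lemma inverse (g : ℝ → ℝ) (hg : Continuous g) (c : ℝ) (hc : 0 < c) (hcg : ∀ x, c ≤ g x) :
    ∃ X : ℝ → ℝ, (∀ s, HasDerivAt X (g (X s))⁻¹ s) ∧ (∀ x, X (∫ s in (0 : ℝ)..x, g s) = x) ∧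
      ∀ s, ∫ t in (0 : ℝ)..(X s), g t = s := by
  have hd : ∀ x, HasDerivAt (fun x => ∫ s in (0 : ℝ)..x, g s) (g x) x := fun x =>
    intervalIntegral.integral_hasDerivAt_right (hg.intervalIntegrable _ _)
      (hg.stronglyMeasurableAtFilter _ _) hg.continuousAt
  have hcont : Continuous (fun x => ∫ s in (0 : ℝ)..x, g s) :=
    continuous_iff_continuousAt.2 fun x => (hd x).continuousAt
  have hpos : ∀ x, 0 < g x := fun x => hc.trans_le (hcg x)
  have hmono : StrictMono (fun x => ∫ s in (0 : ℝ)..x, g s) :=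
    strictMono_of_hasDerivAt_pos hd hpos
  have hlow : ∀ x y, x ≤ y → c * (y - x) ≤
      (∫ s in (0 : ℝ)..y, g s) - ∫ s in (0 : ℝ)..x, g s := by
    intro x y hxy
    rw [intervalIntegral.integral_interval_sub_left (hg.intervalIntegrable _ _)
      (hg.intervalIntegrable _ _)]
    have h1 : ∫ s in x..y, c ≤ ∫ s in x..y, g s :=
      intervalIntegral.integral_mono_on hxy intervalIntegrable_const
        (hg.intervalIntegrable _ _) fun s _ => hcg s
    rw [intervalIntegral.integral_const, smul_eq_mul] at h1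
    linarith
  have htop : Tendsto (fun x => ∫ s in (0 : ℝ)..x, g s) atTop atTop := by
    have h1 : Tendsto (fun x : ℝ => c * x) atTop atTop := tendsto_id.const_mul_atTop hc
    refine tendsto_atTop_mono' atTop ?_ h1
    filter_upwards [eventually_ge_atTop (0 : ℝ)] with x hx
    have h2 := hlow 0 x hx
    rw [intervalIntegral.integral_same, sub_zero, sub_zero] at h2
    exact h2
  have hbot : Tendsto (fun x => ∫ s in (0 : ℝ)..x, g s) atBot atBot := by
    have h1 : Tendsto (fun x : ℝ => c * x) atBot atBot := tendsto_id.const_mul_atBot hc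
    refine tendsto_atBot_mono' atBot ?_ h1
    filter_upwards [eventually_le_atBot (0 : ℝ)] with x hx
    have h2 := hlow x 0 hx
    rw [intervalIntegral.integral_same, zero_sub, zero_sub] at h2
    have h3 : c * -x = -(c * x) := by ring
    rw [h3] at h2
    linarith
  have hsurj : Function.Surjective (fun x => ∫ s in (0 : ℝ)..x, g s) :=
    hcont.surjective htop hbot
  let e : ℝ ≃o ℝ := hmono.orderIsoOfSurjective _ hsurj
  have he : ∀ x, e x = ∫ s in (0 : ℝ)..x, g s := fun x => rfl
  have h1 : ∀ x, e.symm (∫ s in (0 : ℝ)..x, g s) = x := fun x => by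
    rw [← he x, e.symm_apply_apply]
  have h2 : ∀ s, ∫ t in (0 : ℝ)..(e.symm s), g t = s := fun s => by
    rw [← he, e.apply_symm_apply]
  refine ⟨fun s => e.symm s, fun s => ?_, h1, h2⟩
  exact HasDerivAt.of_local_left_inverse (e.symm.continuous.continuousAt) (hd (e.symm s))
    (hpos _).ne' (Eventually.of_forall h2)

/-- the flow of one variable -/
lemma flow1 (a B c : ℝ) (U : ℝ → ℝ) (hU : Continuous U) (ha : ∀ x, a ≤ U x)
    (hB : ∀ x, U x ≤ B) (hc : 0 < a + c) :
    ∃ X : ℝ → ℝ, (∀ s, HasDerivAt X (√(U (X s) + c)) s) ∧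
      (∀ x, X (∫ t in (0 : ℝ)..x, (√(U t + c))⁻¹) = x) ∧
      ∀ s, ∫ t in (0 : ℝ)..(X s), (√(U t + c))⁻¹ = s := by
  have hpos : ∀ x, 0 < √(U x + c) := fun x => Real.sqrt_pos.2 (by linarith [ha x])
  have hcont : Continuous (fun x => (√(U x + c))⁻¹) :=
    (Real.continuous_sqrt.comp (hU.add continuous_const)).inv₀ fun x => (hpos x).ne'
  have hBpos : 0 < √(B + c) := Real.sqrt_pos.2 (by linarith [ha 0, hB 0])
  obtain ⟨X, h1, h2, h3⟩ := inverse (fun x => (√(U x + c))⁻¹) hcont (√(B + c))⁻¹
    (inv_pos.2 hBpos) fun x =>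
      inv_anti₀ (hpos x) (Real.sqrt_le_sqrt (by linarith [hB x]))
  refine ⟨X, fun s => ?_, h2, h3⟩
  have h4 := h1 s
  rwa [inv_inv] at h4

end FLOWAux

/-- **the inverse functions of the phases exist** -/
theorem flow : Stmt_FLOW := by
  intro k D c hc
  have h0 : ∀ i, 0 < D.a + c i := fun i => by
    have h1 := (abs_le.1 (hc i)).1
    have h2 := D.a0
    linarith
  choose X hX1 hX2 hX3 using fun i =>
    FLOWAux.flow1 D.a D.B (c i) (D.U i) (D.Uc i) (D.Ua i) (D.UB i) (h0 i)
  exact ⟨X, ⟨hX1, hX2, hX3⟩⟩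

end Pool.Agent.LVN
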