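import Pool.Agent.LVN.Stmts

/-!
# Uniqueness for the Fourier transform (helper23)
-/

set_option autoImplicit false

namespace Pool.Agent.LVN

open MeasureTheory Set Filter Topology

namespace FTUAux

variable {k : ℕ}

theorem integrable_phi {φ : E k → ℝ} {C R : ℝ} (hm : Measurable φ) (hC : ∀ x, |φ x| ≤ C)
    (h0 : ∀ x, (∃ i, R ≤ |x i|) → φ x = 0) : Integrable φ := by
  have hb : Bornology.IsBounded {x : E k | ∀ i, |x i| < R} := by
    refine (Metric.isBounded_iff_subset_closedBall 0).2 ⟨√(∑ _i : Fin k, R ^ 2), fun x hx => ?_⟩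
    rw [mem_closedBall_zero_iff, EuclideanSpace.norm_eq]
    refine Real.sqrt_le_sqrt (Finset.sum_le_sum fun i _ => ?_)
    rw [Real.norm_eq_abs]
    exact pow_le_pow_left₀ (abs_nonneg _) (hx i).le 2
  have hms : MeasurableSet {x : E k | ∀ i, |x i| < R} := by
    have : {x : E k | ∀ i, |x i| < R} = ⋂ i, {x : E k | |x i| < R} := by
      ext x
      simp
    rw [this]
    refine MeasurableSet.iInter fun i => ?_
    refine measurableSet_lt ?_ measurable_const
    fun_prop
  have h1 : IntegrableOn φ {x : E k | ∀ i, |x i| < R} := by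
    refine Measure.integrableOn_of_bounded (M := C) ?_ hm.aestronglyMeasurable ?_
    · exact hb.measure_lt_top.ne
    · exact Eventually.of_forall fun x => by
        rw [Real.norm_eq_abs]
        exact hC x
  refine (integrableOn_iff_integrable_of_support_subset ?_).1 h1
  intro x hx i
  by_contra hc
  exact hx (h0 x ⟨i, not_lt.1 hc⟩)

theorem dense_ne : Dense {ξ : E k | ∀ i, ξ i ≠ 0} := by
  have h1 : {ξ : E k | ∀ i, ξ i ≠ 0} = ⋂ i, {ξ : E k | ξ i ≠ 0} := by
    ext x
    simp
  rw [h1]
  refine dense_iInter_of_isOpen (fun i => ?_) fun i => ?_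
  · exact isOpen_ne_fun (by fun_prop) continuous_const
  · have h2 : IsOpenMap (fun ξ : E k => ξ i) := by
      refine (EuclideanSpace.proj (𝕜 := ℝ) i : E k →L[ℝ] ℝ).isOpenMap ?_
      intro r
      exact ⟨EuclideanSpace.single i r, by simp⟩
    exact (dense_compl_singleton (0 : ℝ)).preimage h2

theorem integ {ψ : E k → ℝ} (hψ : Integrable ψ) (t : E k) :
    Integrable fun x : E k => (ENNReal.ofReal (ψ x)).toReal •
      Complex.exp (((inner ℝ x t : ℝ) : ℂ) * Complex.I) := by
  refine hψ.abs.mono' ?_ (Eventually.of_forall fun x => ?_)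
  · have h1 : AEStronglyMeasurable (fun x : E k => (ENNReal.ofReal (ψ x)).toReal) volume :=
      (hψ.1.aemeasurable.ennreal_ofReal.ennreal_toReal).aestronglyMeasurable
    have h2 : AEStronglyMeasurable
        (fun x : E k => Complex.exp (((inner ℝ x t : ℝ) : ℂ) * Complex.I)) volume := by
      refine Continuous.aestronglyMeasurable ?_
      fun_prop
    exact h1.smul h2
  · rw [norm_smul, Complex.norm_exp_ofReal_mul_I, mul_one, ENNReal.toReal_ofReal', Real.norm_eq_abs]
    rcases le_total 0 (ψ x) with h | h
    · rw [max_eq_left h]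
    · rw [max_eq_right h, abs_zero]
      exact abs_nonneg _

end FTUAux

open FTUAux

theorem ftu : Stmt_FTU := by
  intro k φ C R hm hC h0 hF
  have hint : Integrable φ := integrable_phi hm hC h0
  have hF' : ∀ ξ : E k,
      ∫ x : E k, (φ x : ℂ) * Complex.exp (Complex.I * ∑ i, (ξ i : ℂ) * (x i : ℂ)) = 0 := by
    have hcont : Continuous fun ξ : E k =>
        ∫ x : E k, (φ x : ℂ) * Complex.exp (Complex.I * ∑ i, (ξ i : ℂ) * (x i : ℂ)) := by
      refine continuous_of_dominated (bound := fun x => |φ x|) ?_ ?_ hint.abs ?_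
      · intro ξ
        refine Measurable.aestronglyMeasurable ?_
        fun_prop
      · intro ξ
        refine Eventually.of_forall fun x => ?_
        rw [norm_mul, Complex.norm_real, Real.norm_eq_abs]
        have : Complex.I * ∑ i, (ξ i : ℂ) * (x i : ℂ) = ((∑ i, ξ i * x i : ℝ) : ℂ) * Complex.I := by
          push_cast
          ring
        rw [this, Complex.norm_exp_ofReal_mul_I, mul_one]
      · refine Eventually.of_forall fun x => ?_
        fun_prop
    have hcl : IsClosed {ξ : E k |
        ∫ x : E k, (φ x : ℂ) * Complex.exp (Complex.I * ∑ i, (ξ i : ℂ) * (x i : ℂ)) = 0} :=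
      isClosed_eq hcont continuous_const
    intro ξ
    have h1 : closure {ξ : E k | ∀ i, ξ i ≠ 0} ⊆ _ := hcl.closure_subset_iff.2 hF
    exact h1 (dense_ne ξ)
  -- two measures
  have hp : Measurable fun x => ENNReal.ofReal (φ x) := hm.ennreal_ofReal
  have hn : Measurable fun x => ENNReal.ofReal (-φ x) := hm.neg.ennreal_ofReal
  have fp : IsFiniteMeasure (volume.withDensity fun x : E k => ENNReal.ofReal (φ x)) :=
    isFiniteMeasure_withDensity_ofReal hint.2
  have fn : IsFiniteMeasure (volume.withDensity fun x : E k => ENNReal.ofReal (-φ x)) :=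
    isFiniteMeasure_withDensity_ofReal hint.neg.2
  have key : (volume.withDensity fun x : E k => ENNReal.ofReal (φ x)) =
      volume.withDensity fun x : E k => ENNReal.ofReal (-φ x) := by
    refine Measure.ext_of_charFun ?_
    funext t
    rw [charFun_apply, charFun_apply,
      integral_withDensity_eq_integral_toReal_smul hp (Eventually.of_forall fun x =>
        ENNReal.ofReal_lt_top),
      integral_withDensity_eq_integral_toReal_smul hn (Eventually.of_forall fun x =>
        ENNReal.ofReal_lt_top), ← sub_eq_zero, ← integral_sub, ← hF' t]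
    · refine integral_congr_ae (Eventually.of_forall fun x => ?_)
      change (ENNReal.ofReal (φ x)).toReal • Complex.exp (((inner ℝ x t : ℝ) : ℂ) * Complex.I) -
        (ENNReal.ofReal (-φ x)).toReal • Complex.exp (((inner ℝ x t : ℝ) : ℂ) * Complex.I) = _
      have h1 : ((inner ℝ x t : ℝ) : ℂ) * Complex.I =
          Complex.I * ∑ i, (t i : ℂ) * (x i : ℂ) := by
        rw [PiLp.inner_apply, mul_comm]
        push_cast
        congr 1
        refine Finset.sum_congr rfl fun i _ => ?_
        simp
      rw [h1, ENNReal.toReal_ofReal', ENNReal.toReal_ofReal', ← sub_smul, Complex.real_smul]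
      congr 2
      rcases le_total 0 (φ x) with h | h
      · rw [max_eq_left h, max_eq_right (by linarith), sub_zero]
      · rw [max_eq_right h, max_eq_left (by linarith)]
        ring
    · exact integ hint t
    · exact integ hint.neg t
  have h2 := (withDensity_eq_iff hp.aemeasurable hn.aemeasurable hint.lintegral_lt_top.ne).1 key
  filter_upwards [h2] with x hx
  rcases le_total 0 (φ x) with h | h
  · rw [ENNReal.ofReal_of_nonpos (by linarith : -φ x ≤ 0), ENNReal.ofReal_eq_zero] at hx
    exact le_antisymm hx h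
  · rw [ENNReal.ofReal_of_nonpos h, eq_comm, ENNReal.ofReal_eq_zero] at hx
    linarith

end Pool.Agent.LVN
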