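import Pool.Agent.LVN.Stmts

/-!
# Liouville metrics in at least three variables: the curves are geodesics
-/

set_option autoImplicit false

namespace Pool.Agent.LVN

open MeasureTheory Set Filter Topology Pool.Agent.XRay

namespace GEOAux

section Metric

variable {k m : ℕ}

/-- the derivative of the metric in the directions of the slices -/
lemma fderiv_metric {G : T k m → T k m →L[ℝ] T k m →L[ℝ] ℝ} {U : Fin k → ℝ → ℝ}
    (hG : IsMetric G) (hU : ∀ i, Differentiable ℝ (U i)) (hL : Liou G U)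
    (z v ξ : T k m) (hξ : ξ.2 = 0) :
    fderiv ℝ G z v ξ ξ =
      (∑ i, deriv (U i) (z.1 i) * v.1 i) * inner ℝ ξ.1 ξ.1 := by
  have hline : HasDerivAt (fun s : ℝ => z + s • v) v 0 := by
    have h1 : HasDerivAt (fun s : ℝ => s • v) ((1 : ℝ) • v) 0 := (hasDerivAt_id (0 : ℝ)).smul_const v
    rw [one_smul] at h1
    exact h1.const_add z
  have h0 : z + (0 : ℝ) • v = z := by rw [zero_smul, add_zero]
  have h1 : HasDerivAt (fun s : ℝ => G (z + s • v)) (fderiv ℝ G z v) 0 := by
    have h2 : HasFDerivAt G (fderiv ℝ G z) (z + (0 : ℝ) • v) := by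
      rw [h0]
      exact (hG.diff z).hasFDerivAt
    exact HasFDerivAt.comp_hasDerivAt (l := G) (f := fun s : ℝ => z + s • v) (0 : ℝ) h2 hline
  have h2 : HasDerivAt (fun s : ℝ => G (z + s • v) ξ ξ) (fderiv ℝ G z v ξ ξ) 0 := by
    have h3 := (h1.clm_apply (hasDerivAt_const (0 : ℝ) ξ)).clm_apply
      (hasDerivAt_const (0 : ℝ) ξ)
    simpa using h3
  have h3 : (fun s : ℝ => G (z + s • v) ξ ξ) = fun s : ℝ =>
      (∑ i, U i (z.1 i + s * v.1 i)) * inner ℝ ξ.1 ξ.1 := by
    funext s
    rw [hL _ _ _ hξ]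
    rfl
  rw [h3] at h2
  have hi : ∀ i, HasDerivAt (fun s : ℝ => U i (z.1 i + s * v.1 i))
      (deriv (U i) (z.1 i) * v.1 i) 0 := by
    intro i
    have hx : HasDerivAt (fun s : ℝ => z.1 i + s * v.1 i) (v.1 i) 0 := by
      have := ((hasDerivAt_id (0 : ℝ)).mul_const (v.1 i)).const_add (z.1 i)
      simpa using this
    have h4 : HasDerivAt (U i) (deriv (U i) (z.1 i)) (z.1 i + 0 * v.1 i) := by
      rw [zero_mul, add_zero]
      exact (hU i _).hasDerivAt
    exact h4.comp (0 : ℝ) hx
  exact h2.unique ((HasDerivAt.fun_sum fun i _ => hi i).mul_const _)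

end Metric

section Curve

variable {k : ℕ} {D : LD k} {b : E k} {s : Fin k → ℝ} {X : Fin k → ℝ → ℝ} {L S : ℝ → ℝ}

/-- the conformal factor along the curve -/
noncomputable def ww (D : LD k) (s : Fin k → ℝ) (b : E k) (X : Fin k → ℝ → ℝ) (τ : ℝ) : ℝ :=
  ∑ i, D.U i (X i (s i * τ + b i))

lemma ww_pos (hk : 0 < k) (D : LD k) (s : Fin k → ℝ) (b : E k) (X : Fin k → ℝ → ℝ) (τ : ℝ) :
    0 < ww D s b X τ := by
  have : Nonempty (Fin k) := ⟨⟨0, hk⟩⟩
  exact Finset.sum_pos (fun i _ => D.a0.trans_le (D.Ua i _)) Finset.univ_nonempty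

lemma L_mono (hk : 0 < k) (hL : ∀ τ, HasDerivAt L (ww D s b X τ) τ) : StrictMono L :=
  strictMono_of_deriv_pos fun τ => by
    rw [(hL τ).deriv]
    exact ww_pos hk D s b X τ

lemma S_deriv (hk : 0 < k) (hL : ∀ τ, HasDerivAt L (ww D s b X τ) τ) (hSL : ∀ τ, S (L τ) = τ)
    (hLS : ∀ t, L (S t) = t) (t : ℝ) : HasDerivAt S (ww D s b X (S t))⁻¹ t := by
  have hmono := L_mono hk hL
  have hSm : Monotone S := by
    intro s t hst
    rw [← hmono.le_iff_le, hLS, hLS]
    exact hst
  have hSc : Continuous S := hSm.continuous_of_surjective fun τ => ⟨L τ, hSL τ⟩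
  exact HasDerivAt.of_local_left_inverse hSc.continuousAt (hL (S t))
    (ww_pos hk D s b X (S t)).ne' (Eventually.of_forall hLS)

end Curve

end GEOAux

open GEOAux in
theorem geo : Stmt_GEO := by
  intro n m G U hG hLi hU D c₀ c X s b w₀ L S hc₀ hc hca hF hs hL hSL hLS a' b' hab hUV
  have hk : 0 < n + 3 := by omega
  have hs2 : ∀ i, s i * s i = 1 := by
    intro i
    rcases hs i with h | h <;> rw [h] <;> norm_num
  have hL' : ∀ τ, HasDerivAt L (ww D s b X τ) τ := hL
  have hmono := L_mono hk hL'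
  have hS := S_deriv hk hL' hSL hLS
  have hmem : ∀ t ∈ Ioo (L a') (L b'), S t ∈ Ioo a' b' := by
    intro t ht
    constructor
    · rw [← hmono.lt_iff_lt, hLS]
      exact ht.1
    · rw [← hmono.lt_iff_lt, hLS]
      exact ht.2
  -- positivity
  have hp : ∀ i x, 0 < D.U i x + c i := fun i x => by
    have h1 := D.Ua i x
    have h2 := (abs_le.mp (hca i)).1
    have h3 := D.a0
    linarith
  -- the coordinates
  have hXd : ∀ i t, HasDerivAt (fun t => X i (s i * S t + b i))
      (s i * √(D.U i (X i (s i * S t + b i)) + c i) / ww D s b X (S t)) t := by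
    intro i t
    have h1 : HasDerivAt (fun t => s i * S t + b i) (s i * (ww D s b X (S t))⁻¹) t :=
      ((hS t).const_mul (s i)).add_const (b i)
    have h2 := (hF.hX i (s i * S t + b i)).comp t h1
    refine h2.congr_deriv ?_
    ring
  obtain ⟨V, hV⟩ : ∃ V : ℝ → E (n + 3), ∀ t, V t = WithLp.toLp 2 (fun i =>
      s i * √(D.U i (X i (s i * S t + b i)) + c i) / ww D s b X (S t)) := ⟨_, fun _ => rfl⟩
  have hVi : ∀ t i, V t i = s i * √(D.U i (X i (s i * S t + b i)) + c i) / ww D s b X (S t) := by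
    intro t i
    rw [hV]
  have hptd : ∀ t, HasDerivAt (fun t => pt X s b (S t)) (V t) t := by
    intro t
    have h1 : HasDerivAt (fun t => (fun i => X i (s i * S t + b i) : Fin (n + 3) → ℝ))
        (fun i => s i * √(D.U i (X i (s i * S t + b i)) + c i) / ww D s b X (S t)) t :=
      hasDerivAt_pi.2 fun i => hXd i t
    rw [hV]
    exact ((PiLp.continuousLinearEquiv 2 ℝ (fun _ : Fin (n + 3) => ℝ)).symm.toContinuousLinearMap
      ).hasFDerivAt.comp_hasDerivAt t h1
  have hγd : ∀ t, HasDerivAt (fun t => cv X s b w₀ (S t)) (V t, 0) t := by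
    intro t
    exact (hptd t).prodMk (hasDerivAt_const t w₀)
  have hγi : ∀ t i, (cv X s b w₀ (S t)).1 i = X i (s i * S t + b i) := fun t i => rfl
  -- the conformal factor
  have hw : ∀ t ∈ Ioo (L a') (L b'), ∑ i, U i (X i (s i * S t + b i)) = ww D s b X (S t) := by
    intro t ht
    have h1 := hUV (S t) (hmem t ht)
    unfold ww
    have h2 : ∀ i, D.U i (X i (s i * S t + b i)) = U i (X i (s i * S t + b i)) + c₀ i :=
      fun i => (h1 i).self_of_nhds
    simp only [h2]
    rw [Finset.sum_add_distrib, hc₀, add_zero]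
  have hnorm : ∀ t, (inner ℝ (V t) (V t) : ℝ) = (ww D s b X (S t))⁻¹ := by
    intro t
    have h1 := (ww_pos hk D s b X (S t)).ne'
    have h4 : ∀ i, V t i * V t i =
        (D.U i (X i (s i * S t + b i)) + c i) / (ww D s b X (S t) * ww D s b X (S t)) := by
      intro i
      rw [hVi, div_mul_div_comm, mul_mul_mul_comm, hs2, one_mul,
        Real.mul_self_sqrt (hp i _).le]
    have h5 : (inner ℝ (V t) (V t) : ℝ) = ∑ i, V t i * V t i := by
      rw [PiLp.inner_apply]
      exact Finset.sum_congr rfl fun i _ => rfl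
    rw [h5]
    simp only [h4]
    rw [← Finset.sum_div, Finset.sum_add_distrib, hc, add_zero]
    change ww D s b X (S t) / _ = _
    field_simp
  refine ⟨⟨fun t _ => (hγd t).differentiableAt, ?_, ?_⟩, fun t _ => ?_⟩
  · intro t ht v
    have hev : (fun r => G (cv X s b w₀ (S r)) (deriv (fun t => cv X s b w₀ (S t)) r) v)
        =ᶠ[𝓝 t] fun r => ∑ i, s i * √(D.U i (X i (s i * S r + b i)) + c i) * v.1 i := by
      filter_upwards [Ioo_mem_nhds ht.1 ht.2] with r hr
      have h1 := (ww_pos hk D s b X (S r)).ne'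
      rw [(hγd r).deriv, hLi _ _ _ rfl]
      simp only [hγi]
      rw [hw r hr, PiLp.inner_apply, Finset.mul_sum]
      refine Finset.sum_congr rfl fun i _ => ?_
      change ww D s b X (S r) * (v.1 i * V r i) = _
      rw [hVi]
      field_simp
    refine HasDerivAt.congr_of_eventuallyEq ?_ hev
    have h1 := hUV (S t) (hmem t ht)
    have hdU : ∀ i, HasDerivAt (D.U i) (deriv (U i) (X i (s i * S t + b i)))
        (X i (s i * S t + b i)) := by
      intro i
      exact (((hU i) _).hasDerivAt.add_const (c₀ i)).congr_of_eventuallyEq (h1 i)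
    have h3 : ∀ i, HasDerivAt (fun r => s i * √(D.U i (X i (s i * S r + b i)) + c i) * v.1 i)
        (2⁻¹ * (deriv (U i) (X i (s i * S t + b i)) * v.1 i) * (ww D s b X (S t))⁻¹) t := by
      intro i
      have h4 : HasDerivAt (fun r => D.U i (X i (s i * S r + b i)) + c i)
          (deriv (U i) (X i (s i * S t + b i)) *
            (s i * √(D.U i (X i (s i * S t + b i)) + c i) / ww D s b X (S t))) t :=
        ((hdU i).comp t (hXd i t)).add_const (c i)
      have h5 := ((h4.sqrt (hp i _).ne').const_mul (s i)).mul_const (v.1 i)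
      refine h5.congr_deriv ?_
      have e1 := (ww_pos hk D s b X (S t)).ne'
      have e2 : √(D.U i (X i (s i * S t + b i)) + c i) ≠ 0 := (Real.sqrt_pos.mpr (hp i _)).ne'
      have e4 : s i ^ 2 = 1 := by rw [sq, hs2]
      field_simp
      rw [e4]
      ring
    refine (HasDerivAt.fun_sum fun i _ => h3 i).congr_deriv ?_
    rw [(hγd t).deriv, fderiv_metric hG hU hLi _ _ _ rfl]
    simp only [hγi]
    rw [hnorm t, ← Finset.sum_mul, ← Finset.mul_sum]
    ring
  · intro t ht
    rw [(hγd t).deriv, hLi _ _ _ rfl]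
    simp only [hγi]
    rw [hw t ht, hnorm t]
    exact mul_inv_cancel₀ (ww_pos hk D s b X (S t)).ne'
  · have := hγd t
    rw [hV] at this
    exact this

end Pool.Agent.LVN
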