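import Pool.Agent.LVN.Stmts

/-!
# The limit of large constants
-/

set_option autoImplicit false

namespace Pool.Agent.LVN

open MeasureTheory Set Filter Topology

namespace LIMAux

/-- the quotient of the square roots -/
noncomputable def g (γ : ℂ) (e : ℝ) : ℂ :=
  γ ^ ((1 : ℂ) / 2) * ((γ + (e : ℂ)) ^ ((1 : ℂ) / 2))⁻¹

theorem cpow_half_mul {τ : ℝ} (hτ : 0 < τ) {z : ℂ} (hz : z ≠ 0) :
    ((τ : ℂ) * z) ^ ((1 : ℂ) / 2) = (√τ : ℂ) * z ^ ((1 : ℂ) / 2) := by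
  have hτ' : (τ : ℂ) ≠ 0 := by exact_mod_cast hτ.ne'
  rw [Complex.cpow_def_of_ne_zero (mul_ne_zero hτ' hz), Complex.cpow_def_of_ne_zero hz,
    Complex.log_ofReal_mul hτ hz, add_mul, Complex.exp_add]
  congr 1
  rw [Real.sqrt_eq_rpow, Real.rpow_def_of_pos hτ]
  push_cast
  rfl

theorem slit {γ : ℂ} (h : γ.im ≠ 0) (e : ℝ) : γ + (e : ℂ) ∈ Complex.slitPlane := by
  right
  simpa using h

theorem half_ne {z : ℂ} (hz : z ∈ Complex.slitPlane) : z ^ ((1 : ℂ) / 2) ≠ 0 := by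
  have hz0 : z ≠ 0 := Complex.slitPlane_ne_zero hz
  rw [Complex.cpow_def_of_ne_zero hz0]
  exact Complex.exp_ne_zero _

theorem g_cont {γ : ℂ} (h : γ.im ≠ 0) : Continuous (g γ) := by
  unfold g
  refine continuous_const.mul (Continuous.inv₀ ?_ (fun e => half_ne (slit h e)))
  exact Continuous.cpow (by fun_prop) continuous_const (fun e => slit h e)

theorem g_zero {γ : ℂ} (h : γ.im ≠ 0) : g γ 0 = 1 := by
  unfold g
  have := half_ne (slit h 0)
  simp only [Complex.ofReal_zero, add_zero] at this ⊢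
  exact mul_inv_cancel₀ this

theorem g_tendsto {γ : ℂ} (h : γ.im ≠ 0) : Tendsto (g γ) (𝓝 0) (𝓝 1) := by
  have := (g_cont h).tendsto 0
  rwa [g_zero h] at this

theorem ratio_eq {k : ℕ} (D : LD k) (i : Fin k) {τ : ℝ} (hτ : 0 < τ) {γ : ℂ} (h : γ.im ≠ 0)
    (t : ℝ) : (√τ : ℂ) * γ ^ ((1 : ℂ) / 2) * (D.p i ((τ : ℂ) * γ) t)⁻¹ = g γ (D.U i t / τ) := by
  have hτ' : (τ : ℂ) ≠ 0 := by exact_mod_cast hτ.ne'
  have e : (D.U i t : ℂ) + (τ : ℂ) * γ = (τ : ℂ) * (γ + ((D.U i t / τ : ℝ) : ℂ)) := by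
    push_cast
    field_simp
    ring
  have hs : (√τ : ℂ) ≠ 0 := by
    exact_mod_cast (Real.sqrt_pos.2 hτ).ne'
  unfold LD.p g
  rw [e, cpow_half_mul hτ (Complex.slitPlane_ne_zero (slit h _))]
  field_simp

theorem small {k : ℕ} (D : LD k) {δ : ℝ} (hδ : 0 < δ) {τ : ℝ} (hτ : 0 < τ) (h : D.B / δ < τ)
    (i : Fin k) (t : ℝ) : |D.U i t / τ| < δ := by
  have h1 := D.Ua i t
  have h2 := D.UB i t
  have h3 := D.a0
  rw [abs_of_nonneg (div_nonneg (by linarith) hτ.le), div_lt_iff₀ hτ]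
  rw [div_lt_iff₀ hδ] at h
  nlinarith

theorem ev_bound {k : ℕ} (D : LD k) {γ : Fin k → ℂ} (h : ∀ i, (γ i).im ≠ 0) :
    ∀ᶠ τ : ℝ in atTop, ∀ i t, ‖g (γ i) (D.U i t / τ)‖ ≤ 2 := by
  rw [eventually_all]
  intro i
  have h1 : ∀ᶠ e in 𝓝 (0 : ℝ), ‖g (γ i) e‖ < 2 := by
    have := (g_tendsto (h i)).norm
    rw [norm_one] at this
    exact this.eventually_lt_const (by norm_num)
  obtain ⟨δ, hδ, h2⟩ := Metric.eventually_nhds_iff.1 h1
  filter_upwards [eventually_gt_atTop 0, eventually_gt_atTop (D.B / δ)] with τ hτ hτ' t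
  refine (h2 ?_).le
  rw [Real.dist_eq, sub_zero]
  exact small D hδ hτ hτ' i t

theorem pt_tendsto {k : ℕ} (D : LD k) {γ : Fin k → ℂ} (h : ∀ i, (γ i).im ≠ 0) (i : Fin k)
    (t : ℝ) : Tendsto (fun τ : ℝ => g (γ i) (D.U i t / τ)) atTop (𝓝 1) :=
  (g_tendsto (h i)).comp (tendsto_const_nhds.div_atTop tendsto_id)

theorem cont_t {k : ℕ} (D : LD k) {γ : Fin k → ℂ} (h : ∀ i, (γ i).im ≠ 0) (i : Fin k) (τ : ℝ) :
    Continuous (fun t : ℝ => g (γ i) (D.U i t / τ)) :=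
  (g_cont (h i)).comp ((D.Uc i).div_const τ)

/-- the integrand -/
noncomputable def F {k : ℕ} (D : LD k) (γ : Fin k → ℂ) (ξ : E k) (τ : ℝ) (x : E k) : ℂ :=
  (D.φ x : ℂ) * ∏ i, (Complex.exp (Complex.I * ((ξ i : ℂ) *
    ∫ s in (0 : ℝ)..(x i), g (γ i) (D.U i s / τ))) * g (γ i) (D.U i (x i) / τ))

theorem F_eq {k : ℕ} (D : LD k) {γ : Fin k → ℂ} (h : ∀ i, (γ i).im ≠ 0) (ξ : E k) {τ : ℝ}
    (hτ : 0 < τ) : (∏ i, ((√τ : ℂ) * γ i ^ ((1 : ℂ) / 2))) *
    D.J (fun i => (√τ : ℂ) * γ i ^ ((1 : ℂ) / 2) * (ξ i : ℂ)) (fun i => (τ : ℂ) * γ i) =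
    ∫ x : E k, F D γ ξ τ x := by
  unfold LD.J
  rw [← integral_const_mul]
  refine integral_congr_ae (ae_of_all _ fun x => ?_)
  simp only [F]
  have e1 : ∀ i, Complex.exp (Complex.I * ((ξ i : ℂ) *
      ∫ s in (0 : ℝ)..(x i), g (γ i) (D.U i s / τ))) * g (γ i) (D.U i (x i) / τ) =
      ((√τ : ℂ) * γ i ^ ((1 : ℂ) / 2)) * (Complex.exp (Complex.I *
        ((√τ : ℂ) * γ i ^ ((1 : ℂ) / 2) * (ξ i : ℂ)) * D.Y i ((τ : ℂ) * γ i) (x i)) *
        (D.p i ((τ : ℂ) * γ i) (x i))⁻¹) := by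
    intro i
    have e2 : (∫ s in (0 : ℝ)..(x i), g (γ i) (D.U i s / τ)) =
        (√τ : ℂ) * γ i ^ ((1 : ℂ) / 2) * D.Y i ((τ : ℂ) * γ i) (x i) := by
      unfold LD.Y
      rw [← intervalIntegral.integral_const_mul]
      refine intervalIntegral.integral_congr fun s _ => ?_
      exact (ratio_eq D i hτ (h i) s).symm
    rw [e2, ← ratio_eq D i hτ (h i) (x i)]
    have e3 : Complex.I * ((ξ i : ℂ) * ((√τ : ℂ) * γ i ^ ((1 : ℂ) / 2) *
        D.Y i ((τ : ℂ) * γ i) (x i))) = Complex.I *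
        ((√τ : ℂ) * γ i ^ ((1 : ℂ) / 2) * (ξ i : ℂ)) * D.Y i ((τ : ℂ) * γ i) (x i) := by ring
    rw [e3]
    ring
  rw [Finset.prod_congr rfl (fun i _ => e1 i), Finset.prod_mul_distrib
    (f := fun i => (√τ : ℂ) * γ i ^ ((1 : ℂ) / 2)), mul_left_comm]

theorem F_meas {k : ℕ} (D : LD k) {γ : Fin k → ℂ} (h : ∀ i, (γ i).im ≠ 0) (ξ : E k) (τ : ℝ) :
    AEStronglyMeasurable (F D γ ξ τ) volume := by
  have h1 : Measurable (fun x : E k => (D.φ x : ℂ)) := Complex.measurable_ofReal.comp D.φm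
  have h2 : Continuous (fun x : E k => ∏ i, (Complex.exp (Complex.I * ((ξ i : ℂ) *
      ∫ s in (0 : ℝ)..(x i), g (γ i) (D.U i s / τ))) * g (γ i) (D.U i (x i) / τ))) := by
    refine continuous_finsetProd _ fun i _ => ?_
    have hx : Continuous (fun x : E k => x i) := by fun_prop
    have h3 : Continuous (fun t : ℝ => ∫ s in (0 : ℝ)..t, g (γ i) (D.U i s / τ)) :=
      intervalIntegral.continuous_primitive (fun a b => (cont_t D h i τ).intervalIntegrable a b) 0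
    exact (Complex.continuous_exp.comp
      (continuous_const.mul (continuous_const.mul (h3.comp hx)))).mul ((cont_t D h i τ).comp hx)
  exact (h1.mul h2.measurable).aestronglyMeasurable

theorem norm_le_of {k : ℕ} {R : ℝ} {x : E k} (h : ∀ i, |x i| < R) :
    ‖x‖ ≤ √((k : ℝ) * R ^ 2) := by
  rw [EuclideanSpace.norm_eq]
  refine Real.sqrt_le_sqrt ?_
  calc ∑ i, ‖x i‖ ^ 2 ≤ ∑ _i : Fin k, R ^ 2 := by
        refine Finset.sum_le_sum fun i _ => ?_
        rw [Real.norm_eq_abs]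
        exact pow_le_pow_left₀ (abs_nonneg _) (h i).le 2
    _ = (k : ℝ) * R ^ 2 := by simp

theorem F_bound {k : ℕ} (D : LD k) {γ : Fin k → ℂ} (ξ : E k) {τ : ℝ}
    (hb : ∀ i t, ‖g (γ i) (D.U i t / τ)‖ ≤ 2) (x : E k) :
    ‖F D γ ξ τ x‖ ≤ (Metric.closedBall (0 : E k) (√((k : ℝ) * D.R ^ 2))).indicator
      (fun _ => D.B * ∏ i, (Real.exp (|ξ i| * (2 * D.R)) * 2)) x := by
  have hC : 0 ≤ D.B * ∏ i : Fin k, (Real.exp (|ξ i| * (2 * D.R)) * 2) := by
    have : 0 ≤ D.B := le_trans (abs_nonneg _) (D.φB x)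
    positivity
  by_cases hx : D.φ x = 0
  · have : F D γ ξ τ x = 0 := by simp [F, hx]
    rw [this, norm_zero]
    exact indicator_nonneg (fun _ _ => hC) x
  · have hx' : ∀ i, |x i| < D.R := by
      intro i
      by_contra hc
      exact hx (D.φ0 x ⟨i, not_lt.1 hc⟩)
    rw [indicator_of_mem (by simpa [mem_closedBall_zero_iff] using norm_le_of hx')]
    unfold F
    rw [norm_mul, norm_prod, Complex.norm_real, Real.norm_eq_abs]
    refine mul_le_mul (D.φB x) ?_ (by positivity) (le_trans (abs_nonneg _) (D.φB x))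
    refine Finset.prod_le_prod (fun i _ => norm_nonneg _) fun i _ => ?_
    rw [norm_mul]
    refine mul_le_mul ?_ (hb i _) (norm_nonneg _) (Real.exp_pos _).le
    refine (Complex.norm_exp_le_exp_norm _).trans (Real.exp_le_exp.2 ?_)
    rw [norm_mul, Complex.norm_I, one_mul, norm_mul, Complex.norm_real, Real.norm_eq_abs]
    refine mul_le_mul_of_nonneg_left ?_ (abs_nonneg _)
    have h1 : ‖∫ s in (0 : ℝ)..(x i), g (γ i) (D.U i s / τ)‖ ≤ 2 * |x i - 0| :=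
      intervalIntegral.norm_integral_le_of_norm_le_const (fun s _ => hb i s)
    rw [sub_zero] at h1
    have := hx' i
    linarith

theorem F_tendsto {k : ℕ} (D : LD k) {γ : Fin k → ℂ} (h : ∀ i, (γ i).im ≠ 0) (ξ x : E k) :
    Tendsto (fun τ : ℝ => F D γ ξ τ x) atTop
      (𝓝 ((D.φ x : ℂ) * Complex.exp (Complex.I * ∑ i, (ξ i : ℂ) * (x i : ℂ)))) := by
  have e : Complex.exp (Complex.I * ∑ i, (ξ i : ℂ) * (x i : ℂ)) =
      ∏ i, (Complex.exp (Complex.I * ((ξ i : ℂ) * (x i : ℂ))) * 1) := by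
    rw [Finset.mul_sum, Complex.exp_sum]
    simp
  rw [e]
  unfold F
  refine tendsto_const_nhds.mul (tendsto_finsetProd _ fun i _ => ?_)
  refine Tendsto.mul ?_ (pt_tendsto D h i (x i))
  refine (Complex.continuous_exp.tendsto _).comp (tendsto_const_nhds.mul
    (tendsto_const_nhds.mul ?_))
  have e1 : ((x i : ℝ) : ℂ) = ∫ _s in (0 : ℝ)..(x i), (1 : ℂ) := by simp
  rw [e1]
  refine intervalIntegral.tendsto_integral_filter_of_dominated_convergence (fun _ => 2) ?_ ?_ ?_ ?_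
  · exact Eventually.of_forall fun τ => (cont_t D h i τ).aestronglyMeasurable
  · filter_upwards [ev_bound D h] with τ hτ
    exact ae_of_all _ fun s _ => hτ i s
  · exact intervalIntegrable_const
  · exact ae_of_all _ fun s _ => pt_tendsto D h i s

end LIMAux

open LIMAux in
theorem lim : Stmt_LIM := by
  intro k D γ h ξ
  have h1 : Tendsto (fun τ : ℝ => ∫ x : E k, F D γ ξ τ x) atTop
      (𝓝 (∫ x : E k, (D.φ x : ℂ) * Complex.exp (Complex.I * ∑ i, (ξ i : ℂ) * (x i : ℂ)))) := by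
    refine tendsto_integral_filter_of_dominated_convergence
      ((Metric.closedBall (0 : E k) (√((k : ℝ) * D.R ^ 2))).indicator
        (fun _ => D.B * ∏ i, (Real.exp (|ξ i| * (2 * D.R)) * 2))) ?_ ?_ ?_ ?_
    · exact Eventually.of_forall fun τ => F_meas D h ξ τ
    · filter_upwards [ev_bound D h] with τ hτ
      exact ae_of_all _ fun x => F_bound D ξ hτ x
    · rw [integrable_indicator_iff Metric.isClosed_closedBall.measurableSet]
      exact integrableOn_const (by exact Metric.isBounded_closedBall.measure_lt_top.ne)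
    · exact ae_of_all _ fun x => F_tendsto D h ξ x
  refine h1.congr' ?_
  filter_upwards [eventually_gt_atTop 0] with τ hτ
  exact (F_eq D h ξ hτ).symm

end Pool.Agent.LVN
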