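import Pool.Agent.LVN.Stmts

set_option autoImplicit false

namespace Pool.Agent.LVN

open MeasureTheory Set Filter Topology

theorem modu : Stmt_MODU := by
  intro U K hU hK hpos
  rcases K.eq_empty_or_nonempty with h0 | hne
  · subst h0
    exact ⟨fun _ => 1, 1, 1, one_pos, continuous_const, fun x => ⟨le_refl _, le_refl _⟩,
      fun x hx => absurd hx (Set.notMem_empty x)⟩
  obtain ⟨x0, hx0, hmin⟩ := hK.exists_isMinOn hne hU.continuousOn
  have hm : 0 < U x0 := hpos x0 hx0
  obtain ⟨r, hr⟩ := hK.isBounded.subset_ball (0 : ℝ)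
  have hr' : ∀ x ∈ K, -r < x ∧ x < r := by
    intro x hx
    have h := hr hx
    rw [Metric.mem_ball, Real.dist_eq, sub_zero, abs_lt] at h
    exact h
  have hrr : -r ≤ r := by
    have h := hr' x0 hx0
    linarith [h.1, h.2]
  have hcl : Continuous (fun x : ℝ => max (-r) (min r x)) := by fun_prop
  have hclm : ∀ x : ℝ, max (-r) (min r x) ∈ Icc (-r) r := fun x =>
    ⟨le_max_left _ _, max_le hrr (min_le_left _ _)⟩
  obtain ⟨B, hB⟩ := (isCompact_Icc (a := -r) (b := r)).bddAbove_image hU.continuousOn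
  refine ⟨fun x => max (U (max (-r) (min r x))) (U x0 / 2), U x0 / 2, max B (U x0 / 2),
    half_pos hm, (hU.comp hcl).max continuous_const, ?_, ?_⟩
  · intro x
    refine ⟨le_max_right _ _, max_le_max ?_ (le_refl _)⟩
    exact hB ⟨_, hclm x, rfl⟩
  · intro x hx
    have h1 : ∀ᶠ t in 𝓝 x, t ∈ Ioo (-r) r := Ioo_mem_nhds (hr' x hx).1 (hr' x hx).2
    have hmx : U x0 ≤ U x := hmin hx
    have h2 : ∀ᶠ t in 𝓝 x, U x0 / 2 < U t :=
      (hU.tendsto x).eventually (lt_mem_nhds (by linarith))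
    filter_upwards [h1, h2] with t ht1 ht2
    have h3 : max (-r) (min r t) = t := by
      rw [min_eq_right (le_of_lt ht1.2), max_eq_right (le_of_lt ht1.1)]
    show max (U (max (-r) (min r t))) (U x0 / 2) = U t
    rw [h3]
    exact max_eq_left (le_of_lt ht2)

end Pool.Agent.LVN
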