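import Pool.Agent.LVN.Stmts

/-!
# NUL: null sets along the curves
-/

set_option autoImplicit false

open MeasureTheory Set Filter Topology

namespace Pool.Agent.LVN

namespace NULAux

theorem prim_diff {g : ℝ → ℝ} (hg : Continuous g) (a : ℝ) :
    Differentiable ℝ (fun x => ∫ s in a..x, g s) := fun x =>
  (intervalIntegral.integral_hasDerivAt_right (hg.intervalIntegrable _ _)
    (hg.stronglyMeasurableAtFilter _ _) hg.continuousAt).differentiableAt

end NULAux

theorem nul : Stmt_NUL := by
  intro k D c X hc hFl s _hs N hNm hN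
  have cA : ∀ i, Continuous (fun t => (√(D.U i t + c i))⁻¹) := by
    intro i
    refine Continuous.inv₀ (((D.Uc i).add continuous_const).sqrt) (fun t => ?_)
    have h1 := D.Ua i t
    have h2 := abs_le.1 (hc i)
    have h3 := D.a0
    exact (Real.sqrt_pos.2 (by linarith [h2.1])).ne'
  have dA : ∀ i, Differentiable ℝ (fun x => ∫ t in (0 : ℝ)..x, (√(D.U i t + c i))⁻¹) :=
    fun i => NULAux.prim_diff (cA i) 0
  have cX : ∀ i, Continuous (X i) := fun i =>
    continuous_iff_continuousAt.2 fun t => (hFl.hX i t).continuousAt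
  have cp : Continuous (fun q : E k × ℝ => pt X s q.1 q.2) := by
    unfold pt
    refine (PiLp.continuous_toLp 2 _).comp (continuous_pi fun i => (cX i).comp ?_)
    have h1 : Continuous fun q : E k × ℝ => q.1 i := by fun_prop
    exact (continuous_const.mul continuous_snd).add h1
  have hmeas : MeasurableSet {q : E k × ℝ | pt X s q.1 q.2 ∉ N} :=
    (cp.measurable hNm).compl
  refine (Measure.ae_ae_comm (p := fun b τ => pt X s b τ ∉ N) hmeas).mpr
    (Filter.Eventually.of_forall fun τ => ?_)
  set g : E k → E k := fun x =>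
    WithLp.toLp 2 (fun i => (∫ t in (0 : ℝ)..(x i), (√(D.U i t + c i))⁻¹) - s i * τ) with hg
  have dg : Differentiable ℝ g := by
    rw [differentiable_euclidean]
    intro i
    have h1 : Differentiable ℝ (fun x : E k => x i) :=
      (EuclideanSpace.proj (𝕜 := ℝ) i).differentiable
    exact ((dA i).comp h1).sub (differentiable_const _)
  have hnull : volume (g '' N) = 0 :=
    addHaar_image_eq_zero_of_differentiableOn_of_addHaar_eq_zero volume
      dg.differentiableOn hN
  refine measure_mono_null ?_ hnull
  intro b hb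
  simp only [mem_ofPred_eq, mem_compl_iff, not_not] at hb
  refine ⟨_, hb, ?_⟩
  ext i
  show (∫ t in (0 : ℝ)..(X i (s i * τ + b i)), (√(D.U i t + c i))⁻¹) - s i * τ = b i
  rw [hFl.inv_X i]
  ring

end Pool.Agent.LVN
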