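import Pool.Agent.LVN.Stmts
import Pool.Agent.Lib_helper92.XRay.Dom

/-!
# Injectivity of the geodesic X-ray transform for Liouville metrics in at least three variables

The points of `ℝ^k × ℝ^m`, `k = n + 3`, are written `z = (x, w)`. Let `G` be a Riemannian metric which
on the slices `w = const` is the Liouville metric `(∑ U_i(x_i)) (dx_0² + ... + dx_{k-1}²)`, the slices
being orthogonal to the last `m` directions. Nothing is assumed on the values of `G` on the last
`m` directions.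
-/

set_option autoImplicit false

open MeasureTheory Set Pool.Agent.XRay

namespace Pool.Agent.LVN

/-- The integrals of `f` vanish along the maximal segments in `M` of the unit speed geodesics which
are contained in the slices `w = const` and satisfy the condition `Q`. -/
def SegZero {k m : ℕ} (G : T k m → T k m →L[ℝ] T k m →L[ℝ] ℝ) (M : Set (T k m)) (f : T k m → ℝ)
    (Q : T k m → T k m → Prop) : Prop :=
  ∀ (γ : ℝ → T k m) (u v s t : ℝ), u < s → s < t → t < v → UnitGeodesicOn G γ (Ioo u v) →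
    (∀ τ ∈ Ioo u v, (deriv γ τ).2 = 0 ∧ Q (γ τ) (deriv γ τ)) →
    MaximalSegment M γ s t → ∫ τ in s..t, f (γ τ) = 0

theorem preview (hA : Stmt_ABS) (hD : Stmt_DIF) (n m : ℕ)
    (G : T (n + 3) m → T (n + 3) m →L[ℝ] T (n + 3) m →L[ℝ] ℝ) (U : Fin (n + 3) → ℝ → ℝ)
    (hG : IsMetric G)
    (hU : ∀ z v v' : T (n + 3) m, v.2 = 0 →
      G z v v' = (∑ i, U i (z.1 i)) * inner ℝ v.1 v'.1) :
    (∀ (M : Set (T (n + 3) m)) (f : T (n + 3) m → ℝ) (c : Fin (n + 3) → ℝ) (δ : ℝ), IsCompact M →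
      volume (frontier M) = 0 → ContinuousOn f M → 0 < δ → ∑ i, c i = 0 →
      (∀ z ∈ M, ∀ i, 0 < U i (z.1 i) + c i) →
      SegZero G M f (fun z v => ∀ i,
        |(∑ j, U j (z.1 j)) ^ 2 * (v.1 i) ^ 2 - U i (z.1 i) - c i| < δ) →
      ∀ z ∈ closure (interior M), f z = 0) ∧
    (∀ (M : Set (T (n + 3) m)) (f : T (n + 3) m → ℝ), IsCompact M →
      volume (frontier M) = 0 → ContinuousOn f M → SegZero G M f (fun _ _ => True) →
      ∀ z ∈ closure (interior M), f z = 0) ∧
    (∀ r f : T (n + 3) m → ℝ, ContDiff ℝ 1 r → (∀ z, r z = 0 → fderiv ℝ r z ≠ 0) →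
      IsCompact {z | 0 ≤ r z} → ContinuousOn f {z | 0 ≤ r z} →
      SegZero G {z | 0 ≤ r z} f (fun _ _ => True) → ∀ z, 0 ≤ r z → f z = 0) := by
  obtain ⟨hUd, hpos⟩ := hD n m G U hG hU
  have p1 : ∀ (M : Set (T (n + 3) m)) (f : T (n + 3) m → ℝ) (c : Fin (n + 3) → ℝ) (δ : ℝ),
      IsCompact M → volume (frontier M) = 0 → ContinuousOn f M → 0 < δ → ∑ i, c i = 0 →
      (∀ z ∈ M, ∀ i, 0 < U i (z.1 i) + c i) →
      SegZero G M f (fun z v => ∀ i,
        |(∑ j, U j (z.1 j)) ^ 2 * (v.1 i) ^ 2 - U i (z.1 i) - c i| < δ) →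
      ∀ z ∈ closure (interior M), f z = 0 := by
    intro M f c δ h1 h2 h3 h4 h5 h6 h7
    exact hA n m G U hG hU M f c δ h1 h2 h3 h4 h5 h6 h7
  have p2 : ∀ (M : Set (T (n + 3) m)) (f : T (n + 3) m → ℝ), IsCompact M →
      volume (frontier M) = 0 → ContinuousOn f M → SegZero G M f (fun _ _ => True) →
      ∀ z ∈ closure (interior M), f z = 0 := by
    intro M f hM hfr hf h0 z hz
    have hne : M.Nonempty := by
      by_contra hcon
      rw [Set.not_nonempty_iff_eq_empty] at hcon
      rw [hcon] at hz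
      simp at hz
    have hc : ∀ i, Continuous (fun z : T (n + 3) m => U i (z.1 i)) := by
      intro i
      exact (hUd i).continuous.comp (by fun_prop)
    choose y hy my using fun i => hM.exists_isMinOn hne (hc i).continuousOn
    set μ : Fin (n + 3) → ℝ := fun i => U i ((y i).1 i) with hμ
    have hs : 0 < ∑ i, μ i := hpos (fun i => (y i).1 i)
    set S : ℝ := ∑ i, μ i with hS
    have hn : (0 : ℝ) < ((n + 3 : ℕ) : ℝ) := by positivity
    apply p1 M f (fun i => S / ((n + 3 : ℕ) : ℝ) - μ i) 1 hM hfr hf one_pos _ _ _ z hz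
    · rw [Finset.sum_sub_distrib]
      simp only [Finset.sum_const, Finset.card_univ, Fintype.card_fin, nsmul_eq_mul]
      rw [mul_div_cancel₀ _ hn.ne']
      simp [hS]
    · intro w hw i
      have h4 : μ i ≤ U i (w.1 i) := my i hw
      have h5 : 0 < S / ((n + 3 : ℕ) : ℝ) := div_pos hs hn
      linarith
    · intro γ u v s t hus hst htv hγ hP hseg
      exact h0 γ u v s t hus hst htv hγ (fun τ hτ => ⟨(hP τ hτ).1, trivial⟩) hseg
  refine ⟨p1, p2, ?_⟩
  intro r f hr hd hM hf h0 z hz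
  have := haarT (n + 3) m
  exact p2 _ f hM (regular_null hr hd volume) hf h0 z (regular_closure hr hd hz)

end Pool.Agent.LVN
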