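import Pool.Agent.LVN.Stmts
import Pool.Agent.Lib_helper92.XRay.Comp

/-!
# Liouville metrics in at least three variables: the integrals along the curves vanish
-/

set_option autoImplicit false

namespace Pool.Agent.LVN

open MeasureTheory Set Filter Topology Pool.Agent.XRay

namespace SEGAux

theorem grow_right {g g' : ℝ → ℝ} (hg : ∀ t, HasDerivAt g (g' t) t) {κ : ℝ}
    (hκ : ∀ t, κ ≤ g' t) {s t : ℝ} (hst : s ≤ t) : g s + κ * (t - s) ≤ g t := by
  have h1 : MonotoneOn (fun t => g t - κ * t) univ := by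
    apply monotoneOn_of_deriv_nonneg convex_univ
    · apply Continuous.continuousOn
      have : Continuous g := continuous_iff_continuousAt.2 fun t => (hg t).continuousAt
      fun_prop
    · intro x _
      exact ((hg x).sub ((hasDerivAt_id x).const_mul κ)).differentiableAt.differentiableWithinAt
    · intro x _
      have h2 : HasDerivAt (fun t => g t - κ * t) (g' x - κ * 1) x :=
        (hg x).sub ((hasDerivAt_id x).const_mul κ)
      rw [h2.deriv]
      linarith [hκ x]
  have h3 := h1 (mem_univ s) (mem_univ t) hst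
  simp only at h3
  linarith

theorem exists_inv {g g' : ℝ → ℝ} (hg : ∀ t, HasDerivAt g (g' t) t) {κ : ℝ} (hκ0 : 0 < κ)
    (hκ : ∀ t, κ ≤ g' t) : StrictMono g ∧ ∃ S : ℝ → ℝ, (∀ t, S (g t) = t) ∧ ∀ t, g (S t) = t := by
  have hmono : StrictMono g := by
    intro s t hst
    have h1 := grow_right hg hκ hst.le
    nlinarith [mul_pos hκ0 (sub_pos.2 hst)]
  refine ⟨hmono, ?_⟩
  have hc : Continuous g := continuous_iff_continuousAt.2 fun t => (hg t).continuousAt
  have hsurj : Function.Surjective g := by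
    intro u
    set L := |u - g 0| / κ with hL
    have hL0 : 0 ≤ L := by positivity
    have hκL : κ * L = |u - g 0| := by rw [hL]; field_simp
    have h1 := grow_right hg hκ hL0
    have h2 := grow_right hg hκ (neg_nonpos.2 hL0)
    have h3 : u ∈ Icc (g (-L)) (g L) := by
      constructor
      · have := neg_abs_le (u - g 0)
        nlinarith
      · have := le_abs_self (u - g 0)
        nlinarith
    obtain ⟨x, _, hx⟩ := intermediate_value_Icc (neg_le_self hL0) hc.continuousOn h3
    exact ⟨x, hx⟩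
  choose S hS using hsurj
  exact ⟨S, fun t => hmono.injective (hS (g t)), hS⟩

end SEGAux

open SEGAux in
theorem seg (hG : Stmt_GEO) : Stmt_SEG := by
  intro n m G U hGm hLi hUd M f c₀ δ hM hf hc₀ hZ D c X s b w₀ hc hca hcδ hFl hs hloc hfr
  have hXc : ∀ i, Continuous (X i) := fun i =>
    continuous_iff_continuousAt.2 fun t => (hFl.hX i t).continuousAt
  have hDU : ∀ i, Continuous (D.U i) := D.Uc
  set w : ℝ → ℝ := fun τ => ∑ i, D.U i (X i (s i * τ + b i)) with hwdef
  have hXs : ∀ i, Continuous (fun τ : ℝ => X i (s i * τ + b i)) := fun i =>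
    (hXc i).comp (by fun_prop)
  have hw : Continuous w := continuous_finsetSum _ fun i _ => (hDU i).comp (hXs i)
  have ha0 := D.a0
  have hw0 : ∀ τ, D.a ≤ w τ := by
    intro τ
    have h1 : D.U 0 (X 0 (s 0 * τ + b 0)) ≤ w τ :=
      Finset.single_le_sum (f := fun i => D.U i (X i (s i * τ + b i)))
        (fun i _ => ha0.le.trans (D.Ua i _)) (Finset.mem_univ 0)
    exact (D.Ua 0 _).trans h1
  have hcv : Continuous (cv X s b w₀) := by
    unfold cv pt
    refine Continuous.prodMk ?_ continuous_const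
    refine (PiLp.continuous_toLp 2 _).comp ?_
    exact continuous_pi fun i => hXs i
  set T : ℝ → ℝ := fun τ => ∫ s in (0 : ℝ)..τ, w s with hTdef
  have hTd : ∀ τ, HasDerivAt T (w τ) τ := fun τ =>
    intervalIntegral.integral_hasDerivAt_right (hw.intervalIntegrable _ _)
      (hw.stronglyMeasurableAtFilter _ _) hw.continuousAt
  obtain ⟨hT, S, hST, hTS⟩ := exists_inv hTd ha0 hw0
  have hTc : Continuous T := continuous_iff_continuousAt.2 fun t => (hTd t).continuousAt
  -- the curve leaves `M`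
  obtain ⟨Cf, hCf⟩ := hM.exists_bound_of_continuousOn hf
  have hce : Continuous (fun z : LVN.T (n + 3) m => z.1 0) := by fun_prop
  obtain ⟨L₀, hL₀⟩ := hM.exists_bound_of_continuousOn hce.continuousOn
  have hκ0 : 0 < √(D.a / 2) := Real.sqrt_pos.2 (by linarith)
  set κ := √(D.a / 2) with hκdef
  have hκ : ∀ t, κ ≤ √(D.U 0 (X 0 t) + c 0) := by
    intro t
    apply Real.sqrt_le_sqrt
    have := D.Ua 0 (X 0 t)
    have := neg_abs_le (c 0)
    have := hca 0
    linarith
  set L := |b 0| + (|L₀| + |X 0 0| + 1) / κ with hLdef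
  have hL0 : 0 ≤ L := by positivity
  have hκL : κ * (L - |b 0|) = |L₀| + |X 0 0| + 1 := by rw [hLdef]; field_simp; ring
  have hout : ∀ τ, L ≤ |τ| → cv X s b w₀ τ ∉ M := by
    intro τ hτ hmem
    have h1 : |X 0 (s 0 * τ + b 0)| ≤ L₀ := hL₀ _ hmem
    have h4 := le_abs_self L₀
    set r := s 0 * τ + b 0 with hr
    have hrL : L - |b 0| ≤ |r| := by
      have h5 : |s 0 * τ| = |τ| := by
        rcases hs 0 with h | h <;> rw [h] <;> simp
      have h6 : |s 0 * τ| ≤ |r| + |b 0| := by
        have : s 0 * τ = r - b 0 := by rw [hr]; ring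
        rw [this]
        exact abs_sub r (b 0)
      linarith
    rcases le_total 0 r with h0 | h0
    · rw [abs_of_nonneg h0] at hrL
      have h3 := grow_right (hFl.hX 0) hκ h0
      have h5 := neg_abs_le (X 0 0)
      have h6 := le_abs_self (X 0 r)
      have h7 := mul_le_mul_of_nonneg_left hrL hκ0.le
      nlinarith
    · rw [abs_of_nonpos h0] at hrL
      have h3 := grow_right (hFl.hX 0) hκ h0
      have h5 := le_abs_self (X 0 0)
      have h6 := neg_abs_le (X 0 r)
      have h7 := mul_le_mul_of_nonneg_left hrL hκ0.le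
      nlinarith
  have hsupp : Function.support (fun τ => M.indicator f (cv X s b w₀ τ) * w τ) ⊆ Ioc (-L) L := by
    intro τ hτ
    have h1 : cv X s b w₀ τ ∈ M := by
      by_contra hcon
      apply hτ
      simp only [indicator_of_notMem hcon, zero_mul]
    have h2 : ¬ L ≤ |τ| := fun h2 => hout τ h2 h1
    have h3 := abs_lt.1 (not_le.1 h2)
    exact ⟨h3.1, h3.2.le⟩
  show ∫ τ : ℝ, M.indicator f (cv X s b w₀ τ) * w τ = 0
  rw [← intervalIntegral.integral_eq_integral_of_support_subset hsupp]
  have hLL : -L ≤ L := neg_le_self hL0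
  refine integral_eq_zero_of_segments hM.isClosed hf (Cf := Cf) hCf hLL hcv
    (hout _ (by rw [abs_neg]; exact le_abs_self L)) (hout _ (le_abs_self L)) hw
    (ae_restrict_of_ae hfr) ?_
  intro y₁ y₂ _ h12 _ hmem hl hr
  -- the open set where the hypotheses of `GEO` hold
  set O : Set ℝ := {τ | ∀ i, ∀ᶠ x in 𝓝 (X i (s i * τ + b i)), D.U i x = U i x + c₀ i} with hOdef
  have hOo : IsOpen O := by
    have h0 : O = ⋂ i, (fun τ : ℝ => X i (s i * τ + b i)) ⁻¹'
        {x : ℝ | ∀ᶠ x' in 𝓝 x, D.U i x' = U i x' + c₀ i} := by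
      ext τ
      simp [hOdef]
    rw [h0]
    apply isOpen_iInter_of_finite
    intro i
    exact isOpen_setOfPred_eventually_nhds.preimage (hXs i)
  have hIO : ∀ y ∈ Icc y₁ y₂, y ∈ O := by
    intro y hy i
    exact hloc _ (hmem y hy) i
  obtain ⟨η₁, hη₁, hb1⟩ := Metric.isOpen_iff.1 hOo y₁ (hIO _ (left_mem_Icc.2 h12.le))
  obtain ⟨η₂, hη₂, hb2⟩ := Metric.isOpen_iff.1 hOo y₂ (hIO _ (right_mem_Icc.2 h12.le))
  set a' := y₁ - η₁ with hadef
  set b' := y₂ + η₂ with hbdef
  have ha1 : a' < y₁ := by linarith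
  have hb1' : y₂ < b' := by linarith
  have hOab : ∀ τ ∈ Ioo a' b', τ ∈ O := by
    intro τ hτ
    rcases lt_or_ge τ y₁ with h1 | h1
    · apply hb1
      rw [Metric.mem_ball, Real.dist_eq, abs_sub_lt_iff]
      constructor <;> linarith [hτ.1]
    · rcases le_or_gt τ y₂ with h2 | h2
      · exact hIO τ ⟨h1, h2⟩
      · apply hb2
        rw [Metric.mem_ball, Real.dist_eq, abs_sub_lt_iff]
        constructor <;> linarith [hτ.2]
  obtain ⟨hgeo, hder⟩ := hG n m G U hGm hLi hUd D c₀ c X s b w₀ T S hc₀ hc hca hFl hs hTd hST hTS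
    a' b' (by linarith) hOab
  set γ : ℝ → LVN.T (n + 3) m := fun t => cv X s b w₀ (S t) with hγdef
  have hγT : ∀ y, γ (T y) = cv X s b w₀ y := by
    intro y; simp only [hγdef, hST]
  have hmax : MaximalSegment M γ (T y₁) (T y₂) := by
    refine ⟨?_, ?_, ?_⟩
    · intro τ hτ
      rw [← hTS τ] at hτ ⊢
      rw [hγT]
      exact hmem _ ⟨hT.le_iff_le.1 hτ.1, hT.le_iff_le.1 hτ.2⟩
    · intro ε hε
      obtain ⟨ε', hε', hc⟩ := Metric.continuous_iff.1 hTc y₁ ε hε
      obtain ⟨y, hy, hyM⟩ := hl ε' hε'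
      refine ⟨T y, ⟨?_, hT hy.2⟩, by rw [hγT]; exact hyM⟩
      have h3 := hc y (by rw [Real.dist_eq, abs_sub_lt_iff]; constructor <;> linarith [hy.1, hy.2])
      rw [Real.dist_eq, abs_sub_lt_iff] at h3
      linarith [h3.2]
    · intro ε hε
      obtain ⟨ε', hε', hc⟩ := Metric.continuous_iff.1 hTc y₂ ε hε
      obtain ⟨y, hy, hyM⟩ := hr ε' hε'
      refine ⟨T y, ⟨hT hy.1, ?_⟩, by rw [hγT]; exact hyM⟩
      have h3 := hc y (by rw [Real.dist_eq, abs_sub_lt_iff]; constructor <;> linarith [hy.1, hy.2])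
      rw [Real.dist_eq, abs_sub_lt_iff] at h3
      linarith [h3.1]
  have hz := hZ γ (T a') (T b') (T y₁) (T y₂) (hT ha1) (hT h12) (hT hb1') hgeo (by
    intro t ht
    have hd := (hder t ht).deriv
    have hSt : S t ∈ Ioo a' b' := by
      rw [← hTS t] at ht
      exact ⟨hT.lt_iff_lt.1 ht.1, hT.lt_iff_lt.1 ht.2⟩
    have hOt := hOab _ hSt
    rw [hd]
    refine ⟨rfl, fun i => ?_⟩
    have hU : ∀ j, U j ((γ t).1 j) = D.U j (X j (s j * S t + b j)) - c₀ j := by
      intro j
      have e1 : D.U j (X j (s j * S t + b j)) = U j (X j (s j * S t + b j)) + c₀ j :=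
        (hOt j).self_of_nhds
      have e2 : (γ t).1 j = X j (s j * S t + b j) := rfl
      rw [e2, e1]; ring
    have hsum : ∑ j, U j ((γ t).1 j) = w (S t) := by
      simp only [hU, Finset.sum_sub_distrib, hc₀, sub_zero, hwdef]
    have hwt : 0 < w (S t) := ha0.trans_le (hw0 _)
    have hs1 : √(D.U i (X i (s i * S t + b i)) + c i) ^ 2 =
        D.U i (X i (s i * S t + b i)) + c i := by
      apply Real.sq_sqrt
      have := D.Ua i (X i (s i * S t + b i))
      have := neg_abs_le (c i)
      have := hca i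
      linarith
    have hσ2 : s i ^ 2 = 1 := by rcases hs i with h | h <;> rw [h] <;> norm_num
    have hcomp : (WithLp.toLp 2 (fun i => s i * √(D.U i (X i (s i * S t + b i)) + c i) /
        ∑ j, D.U j (X j (s j * S t + b j))) : E (n + 3)) i =
        s i * √(D.U i (X i (s i * S t + b i)) + c i) / w (S t) := rfl
    rw [hsum, hU i]
    show |w (S t) ^ 2 * ((WithLp.toLp 2 (fun i => s i * √(D.U i (X i (s i * S t + b i)) + c i) /
        ∑ j, D.U j (X j (s j * S t + b j))) : E (n + 3)) i) ^ 2 - _ - _| < δ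
    rw [hcomp, div_pow, mul_pow, hσ2, hs1, one_mul, mul_div_cancel₀ _ (pow_ne_zero 2 hwt.ne')]
    have key : D.U i (X i (s i * S t + b i)) + c i - (D.U i (X i (s i * S t + b i)) - c₀ i) -
        c₀ i = c i := by ring
    rw [key]
    exact hcδ i) hmax
  rw [← hz]
  have hScont : Continuous S := by
    have hiso : StrictMono S := by
      intro s t hst
      rw [← hT.lt_iff_lt, hTS, hTS]
      exact hst
    have hsur : Function.Surjective S := fun y => ⟨T y, hST y⟩
    exact hiso.monotone.continuous_of_surjective hsur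
  have hcvar := intervalIntegral.integral_comp_mul_deriv'' (a := y₁) (b := y₂) (f := T) (f' := w)
    (g := fun τ => f (γ τ)) hTc.continuousOn (fun y _ => (hTd y).hasDerivWithinAt)
    hw.continuousOn (by
      apply hf.comp
      · exact (hcv.comp hScont).continuousOn
      · rintro _ ⟨y, hy, rfl⟩
        rw [uIcc_of_le h12.le] at hy
        rw [hγT]
        exact hmem y hy)
  rw [← hcvar]
  apply intervalIntegral.integral_congr
  intro y _
  simp only [Function.comp]
  rw [hγT]

end Pool.Agent.LVN
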