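import Pool.Agent.LVN.Stmts

/-!
# Liouville metrics in at least three variables: integrals over parallel lines
-/

set_option autoImplicit false

namespace Pool.Agent.LVN

open MeasureTheory Set Filter Topology

namespace SHRAux

variable {k : ℕ}

/-- the exponential -/
noncomputable def ex (lam : Fin k → ℂ) (b : E k) : ℂ :=
  Complex.exp (Complex.I * ∑ i, lam i * (b i : ℂ))

theorem ex_cont (lam : Fin k → ℂ) : Continuous (ex lam) := by
  unfold ex
  fun_prop

theorem ex_add {lam : Fin k → ℂ} {s : E k} (h : ∑ i, (s i : ℂ) * lam i = 0) (b : E k) (τ : ℝ) :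
    ex lam (b + τ • s) = ex lam b := by
  unfold ex
  have : ∑ i, lam i * (((b + τ • s) i : ℝ) : ℂ) =
      ∑ i, lam i * (b i : ℂ) + τ * ∑ i, (s i : ℂ) * lam i := by
    rw [Finset.mul_sum, ← Finset.sum_add_distrib]
    refine Finset.sum_congr rfl fun i _ => ?_
    simp only [PiLp.add_apply, PiLp.smul_apply, smul_eq_mul]
    push_cast
    ring
  rw [this, h, mul_zero, add_zero]

theorem int_Fe {F : E k → ℝ} {C R : ℝ} (hF : Measurable F) (hC : ∀ b, |F b| ≤ C)
    (hR : ∀ b, R ≤ ‖b‖ → F b = 0) (lam : Fin k → ℂ) :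
    Integrable (fun b => (F b : ℂ) * ex lam b) := by
  have hm : AEStronglyMeasurable (fun b => (F b : ℂ) * ex lam b) volume :=
    ((Complex.measurable_ofReal.comp hF).mul (ex_cont lam).measurable).aestronglyMeasurable
  have hs : Function.support (fun b => (F b : ℂ) * ex lam b) ⊆ Metric.closedBall 0 R := by
    intro b hb
    rw [mem_closedBall_zero_iff]
    by_contra hlt
    exact hb (by simp [hR b (not_le.1 hlt).le])
  rw [← integrableOn_iff_integrable_of_support_subset hs]
  obtain ⟨M, hM⟩ := (isCompact_closedBall (0 : E k) R).exists_bound_of_continuousOn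
    (ex_cont lam).continuousOn
  refine Measure.integrableOn_of_bounded (M := C * M)
    (isCompact_closedBall (0 : E k) R).measure_lt_top.ne hm ?_
  filter_upwards [ae_restrict_mem Metric.isClosed_closedBall.measurableSet] with b hb
  rw [norm_mul, Complex.norm_real]
  exact mul_le_mul (hC b) (hM b hb) (norm_nonneg _) ((abs_nonneg _).trans (hC b))

/-- the cutoff -/
noncomputable def chi : ℝ → ℂ := (Icc (0 : ℝ) 1).indicator 1

theorem chi_meas : Measurable chi := measurable_one.indicator measurableSet_Icc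

theorem chi_int : Integrable chi := by
  unfold chi
  rw [integrable_indicator_iff measurableSet_Icc]
  exact continuous_one.integrableOn_Icc

theorem chi_integral : ∫ x, chi x = 1 := by
  unfold chi
  rw [integral_indicator measurableSet_Icc]
  simp

theorem chi_comp (a : ℝ) {c : ℝ} (hc : 0 < c) : ∫ τ : ℝ, chi (a - τ * c) = (c : ℂ)⁻¹ := by
  have h1 : ∫ τ : ℝ, chi (a - τ * c) = ∫ τ : ℝ, (fun x => chi (a - x)) (τ * c) := rfl
  rw [h1, Measure.integral_comp_mul_right (fun x => chi (a - x)) c, integral_sub_left_eq_self,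
    chi_integral, abs_of_pos (inv_pos.2 hc)]
  simp

theorem norm_comp (a : ℝ) {c : ℝ} (hc : 0 < c) :
    ∫ τ : ℝ, ‖chi (a - τ * c)‖ = c⁻¹ * ∫ x, ‖chi x‖ := by
  have h1 : ∫ τ : ℝ, ‖chi (a - τ * c)‖ = ∫ τ : ℝ, (fun x => ‖chi (a - x)‖) (τ * c) := rfl
  rw [h1, Measure.integral_comp_mul_right (fun x => ‖chi (a - x)‖) c,
    integral_sub_left_eq_self (fun x => ‖chi x‖), abs_of_pos (inv_pos.2 hc), smul_eq_mul]

theorem chi_comp_int (a : ℝ) {c : ℝ} (hc : 0 < c) : Integrable fun τ : ℝ => chi (a - τ * c) := by
  have h : Integrable fun x => chi (a - x) := chi_int.comp_sub_left a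
  exact h.comp_mul_right' hc.ne'

end SHRAux

open SHRAux in
theorem shr : Stmt_SHR := by
  intro k F C R hF hC hR s hs h lam hlam
  have hc : 0 < ‖s‖ ^ 2 := by positivity
  show ∫ b : E k, (F b : ℂ) * ex lam b = 0
  set H : ℝ → E k → ℂ := fun τ b => (F b : ℂ) * ex lam b * chi (inner ℝ s b - τ * ‖s‖ ^ 2) with hHd
  have hme : Measurable (fun b => (F b : ℂ) * ex lam b) :=
    (Complex.measurable_ofReal.comp hF).mul (ex_cont lam).measurable
  have hHm : Measurable (Function.uncurry H) := by
    refine (hme.comp measurable_snd).mul (chi_meas.comp ?_)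
    fun_prop
  have hFe := int_Fe hF hC hR lam
  have hHi : Integrable (Function.uncurry H) (volume.prod volume) := by
    rw [integrable_prod_iff' hHm.aestronglyMeasurable]
    constructor
    · refine Eventually.of_forall fun b => ?_
      exact (chi_comp_int (inner ℝ s b) hc).const_mul ((F b : ℂ) * ex lam b)
    · have e : ∀ b : E k, ∫ τ : ℝ, ‖Function.uncurry H (τ, b)‖ =
          ‖(F b : ℂ) * ex lam b‖ * ((‖s‖ ^ 2)⁻¹ * ∫ x, ‖chi x‖) := by
        intro b
        rw [← norm_comp (inner ℝ s b) hc, ← integral_const_mul]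
        refine integral_congr_ae (Eventually.of_forall fun τ => ?_)
        simp only [Function.uncurry_apply_pair, hHd, norm_mul]
      simp_rw [e]
      exact hFe.norm.mul_const _
  have mp : MeasurePreserving (fun z : ℝ × E k => (z.1, z.2 + z.1 • s))
      (volume.prod volume) (volume.prod volume) := by
    refine MeasurePreserving.skew_product (g := fun (τ : ℝ) (b : E k) => b + τ • s)
      (MeasurePreserving.id _) ?_ ?_
    · fun_prop
    · exact Eventually.of_forall fun τ => map_add_right_eq_self _ _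
  have hGi : Integrable (Function.uncurry fun (τ : ℝ) (b : E k) => H τ (b + τ • s))
      (volume.prod volume) := mp.integrable_comp_of_integrable hHi
  have h1 : ∫ b : E k, ∫ τ : ℝ, H τ b = ∫ b : E k, ∫ τ : ℝ, H τ (b + τ • s) := by
    rw [← integral_integral_swap hHi, ← integral_integral_swap hGi]
    refine integral_congr_ae (Eventually.of_forall fun τ => ?_)
    exact (integral_add_right_eq_self (fun b => H τ b) (τ • s)).symm
  have h2 : ∫ b : E k, ∫ τ : ℝ, H τ b = (∫ b : E k, (F b : ℂ) * ex lam b) * ((‖s‖ ^ 2 : ℝ) : ℂ)⁻¹ := by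
    rw [← integral_mul_const]
    refine integral_congr_ae (Eventually.of_forall fun b => ?_)
    simp only [hHd]
    rw [integral_const_mul, chi_comp _ hc]
  have h3 : ∫ b : E k, ∫ τ : ℝ, H τ (b + τ • s) = 0 := by
    have : ∀ᵐ b : E k, ∫ τ : ℝ, H τ (b + τ • s) = (0 : ℂ) := by
      filter_upwards [h] with b hb
      have e : ∀ τ : ℝ, H τ (b + τ • s) = (ex lam b * chi (inner ℝ s b)) * (F (b + τ • s) : ℂ) := by
        intro τ
        simp only [hHd]
        rw [ex_add hlam, inner_add_right, inner_smul_right, real_inner_self_eq_norm_sq,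
          add_sub_cancel_right]
        ring
      have e2 : ∫ τ : ℝ, (F (b + τ • s) : ℂ) = 0 := by
        have := integral_ofReal (𝕜 := ℂ) (f := fun τ : ℝ => F (b + τ • s)) (μ := volume)
        rw [hb] at this
        simpa using this
      simp_rw [e]
      rw [integral_const_mul, e2, mul_zero]
    rw [integral_congr_ae this]
    simp
  rw [h2, h3] at h1
  rcases mul_eq_zero.1 h1 with h4 | h4
  · exact h4
  · exfalso
    rw [inv_eq_zero, Complex.ofReal_eq_zero] at h4
    exact hc.ne' h4

end Pool.Agent.LVN
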