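import Pool.Agent.LVN.Defs

/-!
# Liouville metrics in at least three variables: the statements

The paper proofs are in `PAPER.md`, one section for each statement.
-/

set_option autoImplicit false

namespace Pool.Agent.LVN

open MeasureTheory Set Filter Topology

/-! ### real constants -/

def Stmt_FLOW : Prop := ∀ (k : ℕ) (D : LD k) (c : Fin k → ℝ), (∀ i, |c i| ≤ D.a / 2) →
  ∃ X, D.Flow c X

/-- integrals over all parallel lines vanish: the Fourier transform vanishes on the orthogonal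
complement -/
def Stmt_SHR : Prop := ∀ (k : ℕ) (F : E k → ℝ) (C R : ℝ), Measurable F → (∀ b, |F b| ≤ C) →
  (∀ b, R ≤ ‖b‖ → F b = 0) → ∀ s : E k, s ≠ 0 → (∀ᵐ b : E k, ∫ τ : ℝ, F (b + τ • s) = 0) →
  ∀ lam : Fin k → ℂ, ∑ i, (s i : ℂ) * lam i = 0 →
  ∫ b : E k, (F b : ℂ) * Complex.exp (Complex.I * ∑ i, lam i * (b i : ℂ)) = 0

/-- change of variables -/
def Stmt_CHV : Prop := ∀ (k : ℕ) (D : LD k) (c : Fin k → ℝ) (X : Fin k → ℝ → ℝ),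
  (∀ i, |c i| ≤ D.a / 2) → D.Flow c X → ∀ lam : Fin k → ℂ,
  D.J lam (fun i => (c i : ℂ)) = ∫ b : E k, (D.φ (WithLp.toLp 2 (fun i => X i (b i))) : ℂ) *
    Complex.exp (Complex.I * ∑ i, lam i * (b i : ℂ))

/-- null sets along the curves -/
def Stmt_NUL : Prop := ∀ (k : ℕ) (D : LD k) (c : Fin k → ℝ) (X : Fin k → ℝ → ℝ),
  (∀ i, |c i| ≤ D.a / 2) → D.Flow c X → ∀ s : Fin k → ℝ, Sgn s → ∀ N : Set (E k),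
  MeasurableSet N → volume N = 0 → ∀ᵐ b : E k, ∀ᵐ τ : ℝ, pt X s b τ ∉ N

/-! ### continuation to complex constants -/

def Stmt_ANA : Prop := ∀ (k : ℕ) (D : LD k) (lam : Fin k → ℂ) (c : ℂ → Fin k → ℂ) (θ₀ : ℂ),
  (∀ i, AnalyticAt ℂ (fun θ => c θ i) θ₀) → (∀ i, (D.a : ℂ) + c θ₀ i ∈ Complex.slitPlane) →
  AnalyticAt ℂ (fun θ => D.J lam (c θ)) θ₀

def Stmt_CNT : Prop := ∀ (k : ℕ) (D : LD k) (s : Fin k → ℝ) (δ : ℝ), 0 < δ →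
  (∀ c : Fin k → ℝ, ∑ i, c i = 0 → (∀ i, |c i| < δ) → ∀ lam : Fin k → ℂ,
    ∑ i, (s i : ℂ) * lam i = 0 → D.J lam (fun i => (c i : ℂ)) = 0) →
  ∀ γ : Fin k → ℂ, ∑ i, γ i = 0 → (∀ i, (γ i).im ≠ 0) → ∀ lam : Fin k → ℂ,
    ∑ i, (s i : ℂ) * lam i = 0 → D.J lam γ = 0

def Stmt_LIM : Prop := ∀ (k : ℕ) (D : LD k) (γ : Fin k → ℂ), (∀ i, (γ i).im ≠ 0) → ∀ ξ : E k,
  Tendsto (fun τ : ℝ => (∏ i, ((√τ : ℂ) * γ i ^ ((1 : ℂ) / 2))) *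
    D.J (fun i => (√τ : ℂ) * γ i ^ ((1 : ℂ) / 2) * (ξ i : ℂ)) (fun i => (τ : ℂ) * γ i)) atTop
    (𝓝 (∫ x : E k, (D.φ x : ℂ) * Complex.exp (Complex.I * ∑ i, (ξ i : ℂ) * (x i : ℂ))))

/-- the isotropic vectors orthogonal to `ξ` -/
def Stmt_VEC : Prop := ∀ (n : ℕ) (ξ : Fin (n + 3) → ℝ), (∀ i, ξ i ≠ 0) →
  ∃ (γ : Fin (n + 3) → ℂ) (s : Fin (n + 3) → ℝ), ∑ i, γ i = 0 ∧ (∀ i, (γ i).im ≠ 0) ∧ Sgn s ∧
    ∑ i, (s i : ℂ) * (γ i ^ ((1 : ℂ) / 2) * (ξ i : ℂ)) = 0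

/-- uniqueness for the Fourier transform -/
def Stmt_FTU : Prop := ∀ (k : ℕ) (φ : E k → ℝ) (C R : ℝ), Measurable φ → (∀ x, |φ x| ≤ C) →
  (∀ x, (∃ i, R ≤ |x i|) → φ x = 0) →
  (∀ ξ : E k, (∀ i, ξ i ≠ 0) →
    ∫ x : E k, (φ x : ℂ) * Complex.exp (Complex.I * ∑ i, (ξ i : ℂ) * (x i : ℂ)) = 0) →
  ∀ᵐ x : E k, φ x = 0

/-- **the analytic core** -/
def Stmt_CORE : Prop := ∀ (n : ℕ) (D : LD (n + 3)) (δ : ℝ), 0 < δ →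
  (∀ c : Fin (n + 3) → ℝ, ∑ i, c i = 0 → (∀ i, |c i| < δ) → ∀ X, D.Flow c X →
    ∀ s : Fin (n + 3) → ℝ, Sgn s → ∀ᵐ b : E (n + 3), ∫ τ : ℝ, D.φ (pt X s b τ) = 0) →
  ∀ᵐ x : E (n + 3), D.φ x = 0

/-! ### the geometric part -/

/-- the functions `U_i` are differentiable and their sum is positive -/
def Stmt_DIF : Prop := ∀ (n m : ℕ) (G : T (n + 3) m → T (n + 3) m →L[ℝ] T (n + 3) m →L[ℝ] ℝ)
  (U : Fin (n + 3) → ℝ → ℝ), Pool.Agent.XRay.IsMetric G → Liou G U →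
  (∀ i, Differentiable ℝ (U i)) ∧ ∀ x : Fin (n + 3) → ℝ, 0 < ∑ i, U i (x i)

/-- **the curves are geodesics** -/
def Stmt_GEO : Prop := ∀ (n m : ℕ) (G : T (n + 3) m → T (n + 3) m →L[ℝ] T (n + 3) m →L[ℝ] ℝ)
  (U : Fin (n + 3) → ℝ → ℝ), Pool.Agent.XRay.IsMetric G → Liou G U →
  (∀ i, Differentiable ℝ (U i)) → ∀ (D : LD (n + 3)) (c₀ c : Fin (n + 3) → ℝ)
  (X : Fin (n + 3) → ℝ → ℝ) (s : Fin (n + 3) → ℝ) (b : E (n + 3)) (w₀ : E m) (L S : ℝ → ℝ),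
  ∑ i, c₀ i = 0 → ∑ i, c i = 0 → (∀ i, |c i| ≤ D.a / 2) → D.Flow c X → Sgn s →
  (∀ τ, HasDerivAt L (∑ i, D.U i (X i (s i * τ + b i))) τ) → (∀ τ, S (L τ) = τ) →
  (∀ t, L (S t) = t) → ∀ a' b' : ℝ, a' < b' →
  (∀ τ ∈ Ioo a' b', ∀ i, ∀ᶠ x in 𝓝 (X i (s i * τ + b i)), D.U i x = U i x + c₀ i) →
  Pool.Agent.XRay.UnitGeodesicOn G (fun t => cv X s b w₀ (S t)) (Ioo (L a') (L b')) ∧
  ∀ t ∈ Ioo (L a') (L b'), HasDerivAt (fun t => cv X s b w₀ (S t))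
    (WithLp.toLp 2 (fun i => s i * √(D.U i (X i (s i * S t + b i)) + c i) /
      ∑ j, D.U j (X j (s j * S t + b j))), 0) t

/-- **the integrals along the curves vanish** -/
def Stmt_SEG : Prop := ∀ (n m : ℕ) (G : T (n + 3) m → T (n + 3) m →L[ℝ] T (n + 3) m →L[ℝ] ℝ)
  (U : Fin (n + 3) → ℝ → ℝ), Pool.Agent.XRay.IsMetric G → Liou G U →
  (∀ i, Differentiable ℝ (U i)) → ∀ (M : Set (T (n + 3) m)) (f : T (n + 3) m → ℝ)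
  (c₀ : Fin (n + 3) → ℝ) (δ : ℝ), IsCompact M → ContinuousOn f M → ∑ i, c₀ i = 0 →
  SliceZero G U c₀ M f δ →
  ∀ (D : LD (n + 3)) (c : Fin (n + 3) → ℝ) (X : Fin (n + 3) → ℝ → ℝ) (s : Fin (n + 3) → ℝ)
    (b : E (n + 3)) (w₀ : E m), ∑ i, c i = 0 → (∀ i, |c i| ≤ D.a / 2) → (∀ i, |c i| < δ) →
  D.Flow c X → Sgn s →
  (∀ z ∈ M, ∀ i, ∀ᶠ x in 𝓝 (z.1 i), D.U i x = U i x + c₀ i) →
  (∀ᵐ τ : ℝ, cv X s b w₀ τ ∉ frontier M) →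
  ∫ τ : ℝ, M.indicator f (cv X s b w₀ τ) * ∑ i, D.U i (X i (s i * τ + b i)) = 0

/-- modification of a continuous function away from a compact set -/
def Stmt_MODU : Prop := ∀ (U : ℝ → ℝ) (K : Set ℝ), Continuous U → IsCompact K →
  (∀ x ∈ K, 0 < U x) → ∃ (u : ℝ → ℝ) (a B : ℝ), 0 < a ∧ Continuous u ∧
    (∀ x, a ≤ u x ∧ u x ≤ B) ∧ ∀ x ∈ K, ∀ᶠ t in 𝓝 x, u t = U t

/-- **the theorem** -/
def Stmt_ABS : Prop := ∀ (n m : ℕ) (G : T (n + 3) m → T (n + 3) m →L[ℝ] T (n + 3) m →L[ℝ] ℝ)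
  (U : Fin (n + 3) → ℝ → ℝ), Pool.Agent.XRay.IsMetric G → Liou G U →
  ∀ (M : Set (T (n + 3) m)) (f : T (n + 3) m → ℝ) (c₀ : Fin (n + 3) → ℝ) (δ : ℝ), IsCompact M →
  volume (frontier M) = 0 → ContinuousOn f M → 0 < δ → ∑ i, c₀ i = 0 →
  (∀ z ∈ M, ∀ i, 0 < U i (z.1 i) + c₀ i) → SliceZero G U c₀ M f δ →
  ∀ z ∈ closure (interior M), f z = 0

end Pool.Agent.LVN
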