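import Mathlib
import Pool.Agent.LVN.Stmts

/-!
# LVN_VEC: isotropic vectors orthogonal to a given vector
-/

set_option autoImplicit false

namespace Pool.Agent.LVN

namespace VECAux

/-- a vector orthogonal to `ξ` with nonzero coordinates -/
theorem exists_a (n : ℕ) (ξ : Fin (n + 3) → ℝ) (hξ : ∀ i, ξ i ≠ 0) :
    ∃ a : Fin (n + 3) → ℝ, (∀ i, a i ≠ 0) ∧ ∑ i, a i * ξ i = 0 := by
  refine ⟨fun i => (1 - (if i = 0 then ((n : ℝ) + 3) else 0)) / ξ i, ?_, ?_⟩
  · intro i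
    refine div_ne_zero ?_ (hξ i)
    have hn : (0 : ℝ) ≤ n := Nat.cast_nonneg n
    split_ifs
    · intro h
      linarith
    · simp
  · have h1 : ∀ i : Fin (n + 3), (1 - (if i = 0 then ((n : ℝ) + 3) else 0)) / ξ i * ξ i =
        1 - (if i = 0 then ((n : ℝ) + 3) else 0) := fun i => div_mul_cancel₀ _ (hξ i)
    rw [Finset.sum_congr rfl (fun i _ => h1 i), Finset.sum_sub_distrib, Finset.sum_ite_eq']
    simp

/-- a vector orthogonal to two vectors -/
theorem exists_b (n : ℕ) (ξ a : Fin (n + 3) → ℝ) :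
    ∃ b : Fin (n + 3) → ℝ, b ≠ 0 ∧ ∑ i, b i * ξ i = 0 ∧ ∑ i, a i * b i = 0 := by
  let f : (Fin (n + 3) → ℝ) →ₗ[ℝ] (Fin 2 → ℝ) :=
    LinearMap.pi ![∑ i, (ξ i) • LinearMap.proj i, ∑ i, (a i) • LinearMap.proj i]
  have h : LinearMap.ker f ≠ ⊥ := by
    apply LinearMap.ker_ne_bot_of_finrank_lt
    simp
  obtain ⟨b, hb, hb0⟩ := (Submodule.ne_bot_iff _).1 h
  rw [LinearMap.mem_ker] at hb
  refine ⟨b, hb0, ?_, ?_⟩
  · have := congrFun hb 0
    simp [f, LinearMap.pi_apply] at this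
    rw [← this]
    exact Finset.sum_congr rfl (fun i _ => mul_comm _ _)
  · have := congrFun hb 1
    simp [f, LinearMap.pi_apply] at this
    exact this

/-- a vector of the same length -/
theorem exists_b' (n : ℕ) (ξ a : Fin (n + 3) → ℝ) (ha : 0 < ∑ i, a i ^ 2) :
    ∃ b : Fin (n + 3) → ℝ, ∑ i, b i * ξ i = 0 ∧ ∑ i, a i * b i = 0 ∧
      ∑ i, b i ^ 2 = ∑ i, a i ^ 2 := by
  obtain ⟨b, hb0, h1, h2⟩ := exists_b n ξ a
  have hb : 0 < ∑ i, b i ^ 2 := by
    obtain ⟨j, hj⟩ := Function.ne_iff.1 hb0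
    refine Finset.sum_pos' (fun i _ => sq_nonneg _) ⟨j, Finset.mem_univ _, ?_⟩
    have : b j ≠ 0 := by simpa using hj
    positivity
  set r : ℝ := √((∑ i, a i ^ 2) / ∑ i, b i ^ 2) with hr
  have hr2 : r ^ 2 = (∑ i, a i ^ 2) / ∑ i, b i ^ 2 := Real.sq_sqrt (by positivity)
  refine ⟨fun i => r * b i, ?_, ?_, ?_⟩
  · have : ∀ i, r * b i * ξ i = r * (b i * ξ i) := fun i => by ring
    rw [Finset.sum_congr rfl (fun i _ => this i), ← Finset.mul_sum, h1, mul_zero]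
  · have : ∀ i, a i * (r * b i) = r * (a i * b i) := fun i => by ring
    rw [Finset.sum_congr rfl (fun i _ => this i), ← Finset.mul_sum, h2, mul_zero]
  · have : ∀ i, (r * b i) ^ 2 = r ^ 2 * (b i ^ 2) := fun i => by ring
    rw [Finset.sum_congr rfl (fun i _ => this i), ← Finset.mul_sum, hr2, div_mul_cancel₀ _ hb.ne']

/-- a rotation making finitely many numbers non-real -/
theorem exists_rot (k : ℕ) (w : Fin k → ℂ) (hw : ∀ i, w i ≠ 0) :
    ∃ ζ : ℂ, ∀ i, (ζ * w i).im ≠ 0 := by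
  obtain ⟨t, ht⟩ := Infinite.exists_notMem_finset
    (Finset.univ.image (fun i : Fin k => - (w i).re / (w i).im))
  refine ⟨(t : ℂ) + Complex.I, fun i hi => ?_⟩
  have h1 : t * (w i).im + (w i).re = 0 := by
    simpa [Complex.mul_im] using hi
  by_cases h0 : (w i).im = 0
  · rw [h0, mul_zero, zero_add] at h1
    exact hw i (Complex.ext h1 h0)
  · apply ht
    rw [Finset.mem_image]
    refine ⟨i, Finset.mem_univ _, ?_⟩
    rw [div_eq_iff h0]
    linarith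

/-- the sign of the square root of a square -/
theorem exists_sgn (v : ℂ) : ∃ s : ℝ, (s = 1 ∨ s = -1) ∧ (s : ℂ) * (v ^ 2) ^ ((1 : ℂ) / 2) = v := by
  have h : ((v ^ 2) ^ ((1 : ℂ) / 2)) ^ 2 = v ^ 2 := by
    have := Complex.cpow_nat_inv_pow (v ^ 2) (n := 2) two_ne_zero
    rw [one_div]
    exact_mod_cast this
  rcases sq_eq_sq_iff_eq_or_eq_neg.1 h with h1 | h1
  · exact ⟨1, Or.inl rfl, by rw [h1]; simp⟩
  · exact ⟨-1, Or.inr rfl, by rw [h1]; simp⟩

end VECAux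

open VECAux in
theorem vec : Stmt_VEC := by
  intro n ξ hξ
  obtain ⟨a, ha0, ha⟩ := exists_a n ξ hξ
  have hap : 0 < ∑ i, a i ^ 2 := by
    refine Finset.sum_pos' (fun i _ => sq_nonneg _) ⟨0, Finset.mem_univ _, ?_⟩
    have := ha0 0
    positivity
  obtain ⟨b, hb1, hb2, hb3⟩ := exists_b' n ξ a hap
  set u : Fin (n + 3) → ℂ := fun i => (a i : ℂ) + (b i : ℂ) * Complex.I with hu
  have hu0 : ∀ i, u i ≠ 0 := by
    intro i h
    apply ha0 i
    have := congrArg Complex.re h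
    simpa [hu] using this
  obtain ⟨ζ, hζ⟩ := exists_rot (n + 3) (fun i => u i ^ 2) (fun i => pow_ne_zero 2 (hu0 i))
  have hz : (ζ ^ ((1 : ℂ) / 2)) ^ 2 = ζ := by
    have := Complex.cpow_nat_inv_pow ζ (n := 2) two_ne_zero
    rw [one_div]
    exact_mod_cast this
  set z : ℂ := ζ ^ ((1 : ℂ) / 2) with hzdef
  have hs := fun i => exists_sgn (z * u i)
  choose s hs1 hs2 using hs
  refine ⟨fun i => (z * u i) ^ 2, s, ?_, ?_, hs1, ?_⟩
  · have h1 : ∀ i, (z * u i) ^ 2 = z ^ 2 *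
        (((a i ^ 2 - b i ^ 2 : ℝ) : ℂ) + ((a i * b i : ℝ) : ℂ) * (2 * Complex.I)) := by
      intro i
      simp only [hu]
      push_cast
      linear_combination (z ^ 2 * (b i : ℂ) ^ 2) * Complex.I_sq
    rw [Finset.sum_congr rfl (fun i _ => h1 i), ← Finset.mul_sum, Finset.sum_add_distrib,
      ← Finset.sum_mul, ← Complex.ofReal_sum, ← Complex.ofReal_sum, hb2, Finset.sum_sub_distrib,
      hb3]
    simp
  · intro i
    show ((z * u i) ^ 2).im ≠ 0
    rw [mul_pow, hz]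
    exact hζ i
  · have h1 : ∀ i, (s i : ℂ) * (((z * u i) ^ 2) ^ ((1 : ℂ) / 2) * (ξ i : ℂ)) =
        z * (((a i * ξ i : ℝ) : ℂ) + ((b i * ξ i : ℝ) : ℂ) * Complex.I) := by
      intro i
      rw [← mul_assoc, hs2 i]
      simp only [hu]
      push_cast
      ring
    rw [Finset.sum_congr rfl (fun i _ => h1 i), ← Finset.mul_sum, Finset.sum_add_distrib,
      ← Finset.sum_mul, ← Complex.ofReal_sum, ← Complex.ofReal_sum, ha, hb1]
    simp

end Pool.Agent.LVN
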