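import Pool.Agent.LVN.Abs
import Pool.Agent.LVN.Ana
import Pool.Agent.LVN.Chv
import Pool.Agent.LVN.Cnt
import Pool.Agent.LVN.Core
import Pool.Agent.LVN.Dif
import Pool.Agent.LVN.FlowM
import Pool.Agent.LVN.Ftu
import Pool.Agent.LVN.GeoM
import Pool.Agent.LVN.LimT
import Pool.Agent.LVN.Modu
import Pool.Agent.LVN.NulSet
import Pool.Agent.LVN.Seg
import Pool.Agent.LVN.Shr
import Pool.Agent.LVN.Vec
import Pool.Agent.LVN.Preview

/-!
# All the pieces of the proof put together

`core_done : Stmt_CORE` (whole slices) and `abs_done : Stmt_ABS` (compact sets), no hypotheses left.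
-/

set_option autoImplicit false

namespace Pool.Agent.LVN

theorem core_done : Stmt_CORE := core flow shr chv (cnt ana) lim vec ftu

theorem abs_done : Stmt_ABS := abs_ flow nul (seg geo) modu dif core_done

end Pool.Agent.LVN
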