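import Mathlib
import Pool.Agent.Lib_helper92.XRay.GeoDefs

/-!
# Liouville metrics in at least three variables: definitions

The metric is `(∑ U_i(x_i)) |dx|²` on the slices `w = const` of `T k m = ℝ^k × ℝ^m`. In the analytic
part `D : LD k` contains (modified) functions `U_i ≥ a > 0` and the density `φ`. The momenta are
`p_i = √(U_i + c_i)`, `∑ c_i = 0`, and the phases `Y_i = ∫ dx_i / p_i`.
-/

set_option autoImplicit false

namespace Pool.Agent.LVN

open MeasureTheory Set Filter Topology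

abbrev E (k : ℕ) : Type := EuclideanSpace ℝ (Fin k)

/-- the data of the analytic part -/
structure LD (k : ℕ) where
  U : Fin k → ℝ → ℝ
  φ : E k → ℝ
  a : ℝ
  B : ℝ
  R : ℝ
  a0 : 0 < a
  R0 : 0 < R
  Uc : ∀ i, Continuous (U i)
  Ua : ∀ i t, a ≤ U i t
  UB : ∀ i t, U i t ≤ B
  φm : Measurable φ
  φB : ∀ x, |φ x| ≤ B
  φ0 : ∀ x, (∃ i, R ≤ |x i|) → φ x = 0

namespace LD

variable {k : ℕ} (D : LD k)

/-- the momentum `√(U_i + c)` (principal branch) -/
noncomputable def p (i : Fin k) (c : ℂ) (t : ℝ) : ℂ := ((D.U i t : ℂ) + c) ^ ((1 : ℂ) / 2)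

/-- the phase -/
noncomputable def Y (i : Fin k) (c : ℂ) (t : ℝ) : ℂ := ∫ s in (0 : ℝ)..t, (D.p i c s)⁻¹

/-- the transform of `φ` -/
noncomputable def J (lam c : Fin k → ℂ) : ℂ :=
  ∫ x : E k, (D.φ x : ℂ) *
    ∏ i, (Complex.exp (Complex.I * lam i * D.Y i (c i) (x i)) * (D.p i (c i) (x i))⁻¹)

/-- `X_i` is the inverse function of the phase `Y_i`, for real constants `c_i` -/
structure Flow (c : Fin k → ℝ) (X : Fin k → ℝ → ℝ) : Prop where
  hX : ∀ i s, HasDerivAt (X i) (√(D.U i (X i s) + c i)) s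
  X_inv : ∀ i x, X i (∫ t in (0 : ℝ)..x, (√(D.U i t + c i))⁻¹) = x
  inv_X : ∀ i s, ∫ t in (0 : ℝ)..(X i s), (√(D.U i t + c i))⁻¹ = s

end LD

/-- the point of the curve `τ ↦ (X_i (s_i τ + b_i))_i` -/
noncomputable def pt {k : ℕ} (X : Fin k → ℝ → ℝ) (s : Fin k → ℝ) (b : E k) (τ : ℝ) : E k :=
  WithLp.toLp 2 (fun i => X i (s i * τ + b i))

/-- signs -/
def Sgn {k : ℕ} (s : Fin k → ℝ) : Prop := ∀ i, s i = 1 ∨ s i = -1

/-! ### the geometric part -/

/-- the total space -/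
abbrev T (k m : ℕ) : Type := E k × E m

theorem haarT (k m : ℕ) : (volume : Measure (T k m)).IsAddHaarMeasure := by
  show (Measure.prod volume volume).IsAddHaarMeasure
  infer_instance

/-- the metric on the slices `w = const` -/
def Liou {k m : ℕ} (G : T k m → T k m →L[ℝ] T k m →L[ℝ] ℝ) (U : Fin k → ℝ → ℝ) : Prop :=
  ∀ z v v' : T k m, v.2 = 0 → G z v v' = (∑ i, U i (z.1 i)) * inner ℝ v.1 v'.1

/-- The integrals of `f` vanish along the maximal segments in `M` of the unit speed geodesics which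
are contained in the slices `w = const` and on which the first integrals `W² v_i² - U_i`,
`W = ∑ U_j`, differ from `c_i` by less than `δ`. -/
def SliceZero {k m : ℕ} (G : T k m → T k m →L[ℝ] T k m →L[ℝ] ℝ) (U : Fin k → ℝ → ℝ)
    (c : Fin k → ℝ) (M : Set (T k m)) (f : T k m → ℝ) (δ : ℝ) : Prop :=
  ∀ (γ : ℝ → T k m) (u v s t : ℝ), u < s → s < t → t < v →
    Pool.Agent.XRay.UnitGeodesicOn G γ (Ioo u v) →
    (∀ τ ∈ Ioo u v, (deriv γ τ).2 = 0 ∧ ∀ i,
      |(∑ j, U j ((γ τ).1 j)) ^ 2 * ((deriv γ τ).1 i) ^ 2 - U i ((γ τ).1 i) - c i| < δ) →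
    Pool.Agent.XRay.MaximalSegment M γ s t → ∫ τ in s..t, f (γ τ) = 0

/-- the curve in the slice `w = w₀` -/
noncomputable def cv {k m : ℕ} (X : Fin k → ℝ → ℝ) (s : Fin k → ℝ) (b : E k) (w₀ : E m) (τ : ℝ) :
    T k m := (pt X s b τ, w₀)

end Pool.Agent.LVN
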